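import Mathlib

set_option autoImplicit false

/-!
Subset sums of finite multisets of positive integers; growth of the set of subset sums modulo `q`
and the absorbing lemma.
-/

namespace Pool.Agent.Lib.MP_d49ebf_nt

open Finset

/-- Sub-multiset sums. -/
def SS (M : Multiset ℕ) : Set ℕ := {x | ∃ T ≤ M, T.sum = x}

theorem SS_mono {M M' : Multiset ℕ} (h : M ≤ M') : SS M ⊆ SS M' :=
  fun _ ⟨T, hT, hx⟩ => ⟨T, hT.trans h, hx⟩

theorem SS_add {M M' : Multiset ℕ} {x y : ℕ} (hx : x ∈ SS M) (hy : y ∈ SS M') :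
    x + y ∈ SS (M + M') := by
  obtain ⟨T, hT, rfl⟩ := hx
  obtain ⟨T', hT', rfl⟩ := hy
  exact ⟨T + T', add_le_add hT hT', by simp⟩

theorem zero_mem_SS (M : Multiset ℕ) : 0 ∈ SS M := ⟨0, Multiset.zero_le _, by simp⟩

theorem mem_SS_cons {w : ℕ} {M : Multiset ℕ} {x : ℕ} (hx : x ∈ SS M) : w + x ∈ SS (w ::ₘ M) := by
  obtain ⟨T, hT, rfl⟩ := hx
  exact ⟨w ::ₘ T, Multiset.cons_le_cons _ hT, by simp⟩

theorem SS_cons_iff {w : ℕ} {M : Multiset ℕ} {x : ℕ} :
    x ∈ SS (w ::ₘ M) ↔ x ∈ SS M ∨ ∃ y ∈ SS M, w + y = x := by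
  constructor
  · rintro ⟨T, hT, rfl⟩
    have h : T ∈ (w ::ₘ M).powerset := Multiset.mem_powerset.2 hT
    rw [Multiset.powerset_cons, Multiset.mem_add] at h
    rcases h with h | h
    · left
      exact ⟨T, Multiset.mem_powerset.1 h, rfl⟩
    · right
      rw [Multiset.mem_map] at h
      obtain ⟨T', hT', rfl⟩ := h
      exact ⟨T'.sum, ⟨T', Multiset.mem_powerset.1 hT', rfl⟩, by simp⟩
  · rintro (h | ⟨y, hy, rfl⟩)
    · exact SS_mono (Multiset.le_cons_self _ _) h
    · exact mem_SS_cons hy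

/-- `X` contains the arithmetic progression `α, α + q, …, α + n q`. -/
def AP (X : Set ℕ) (q α n : ℕ) : Prop := ∀ i ≤ n, α + i * q ∈ X

/-- Distinct elements of `X` differ by at least `D`. -/
def DSep (D : ℕ) (X : Set ℕ) : Prop := ∀ x ∈ X, ∀ y ∈ X, x < y → x + D ≤ y

theorem DSep.mono {D : ℕ} {X Y : Set ℕ} (h : DSep D Y) (hXY : X ⊆ Y) : DSep D X :=
  fun x hx y hy => h x (hXY hx) y (hXY hy)

theorem AP.mono {X Y : Set ℕ} {q α n m : ℕ} (h : AP X q α n) (hXY : X ⊆ Y) (hm : m ≤ n) :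
    AP Y q α m := fun i hi => hXY (h i (hi.trans hm))

/-- The subset sums modulo `q`. -/
def SSq (q : ℕ) (M : Multiset ℕ) : Finset (ZMod q) :=
  (M.powerset.map fun T => ((T.sum : ℕ) : ZMod q)).toFinset

theorem mem_SSq {q : ℕ} {M : Multiset ℕ} {x : ZMod q} :
    x ∈ SSq q M ↔ ∃ T ≤ M, ((T.sum : ℕ) : ZMod q) = x := by
  simp [SSq, Multiset.mem_powerset]

theorem SSq_mono {q : ℕ} {M M' : Multiset ℕ} (h : M ≤ M') : SSq q M ⊆ SSq q M' := by
  intro x hx
  rw [mem_SSq] at hx ⊢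
  obtain ⟨T, hT, hx⟩ := hx
  exact ⟨T, hT.trans h, hx⟩

theorem SSq_cons_mem {q w : ℕ} {M : Multiset ℕ} {x : ZMod q} (hx : x ∈ SSq q M) :
    x + w ∈ SSq q (w ::ₘ M) := by
  rw [mem_SSq] at hx ⊢
  obtain ⟨T, hT, rfl⟩ := hx
  exact ⟨w ::ₘ T, Multiset.cons_le_cons _ hT, by simp [add_comm]⟩

theorem SSq_cons_iff {q w : ℕ} {M : Multiset ℕ} {x : ZMod q} :
    x ∈ SSq q (w ::ₘ M) ↔ x ∈ SSq q M ∨ ∃ y ∈ SSq q M, y + w = x := by
  constructor
  · rw [mem_SSq]
    rintro ⟨T, hT, rfl⟩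
    have h : T.sum ∈ SS (w ::ₘ M) := ⟨T, hT, rfl⟩
    rw [SS_cons_iff] at h
    rcases h with ⟨T', hT', hs⟩ | ⟨y, ⟨T', hT', rfl⟩, hy⟩
    · left
      rw [mem_SSq]
      exact ⟨T', hT', by rw [hs]⟩
    · right
      refine ⟨(T'.sum : ℕ), mem_SSq.2 ⟨T', hT', rfl⟩, ?_⟩
      rw [← hy]; push_cast; ring
  · rintro (h | ⟨y, hy, rfl⟩)
    · exact SSq_mono (Multiset.le_cons_self _ _) h
    · exact SSq_cons_mem hy

theorem growth (q : ℕ) (M : Multiset ℕ) :
    ∃ T ≤ M, SSq q T = SSq q M ∧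
      ∀ k ≤ T.card, ∃ T1 ≤ T, T1.card = k ∧ k + 1 ≤ (SSq q T1).card := by
  induction M using Multiset.induction_on with
  | empty =>
    refine ⟨0, le_rfl, rfl, ?_⟩
    intro k hk
    simp only [Multiset.card_zero, nonpos_iff_eq_zero] at hk
    subst hk
    refine ⟨0, le_rfl, rfl, ?_⟩
    have : (0 : ZMod q) ∈ SSq q 0 := mem_SSq.2 ⟨0, le_rfl, by simp⟩
    exact Finset.card_pos.2 ⟨_, this⟩
  | cons w M ih =>
    obtain ⟨T, hT, hS, hk⟩ := ih
    have hcons : SSq q (w ::ₘ M) = SSq q (w ::ₘ T) := by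
      ext x
      rw [SSq_cons_iff, SSq_cons_iff, hS]
    by_cases h : SSq q (w ::ₘ T) = SSq q T
    · refine ⟨T, hT.trans (Multiset.le_cons_self _ _), ?_, hk⟩
      rw [hcons, h]
    · refine ⟨w ::ₘ T, Multiset.cons_le_cons _ hT, hcons.symm, ?_⟩
      intro k hk'
      rw [Multiset.card_cons] at hk'
      rcases Nat.lt_or_ge k (T.card + 1) with h1 | h1
      · obtain ⟨T1, hT1, h2, h3⟩ := hk k (by omega)
        exact ⟨T1, hT1.trans (Multiset.le_cons_self _ _), h2, h3⟩
      · have h2 : k = T.card + 1 := by omega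
        subst h2
        refine ⟨w ::ₘ T, le_rfl, by simp, ?_⟩
        obtain ⟨T1, hT1, h3, h4⟩ := hk T.card le_rfl
        have h5 : T1 = T := Multiset.eq_of_le_of_card_le hT1 h3.ge
        subst h5
        have h6 : SSq q T1 ⊂ SSq q (w ::ₘ T1) := by
          refine (SSq_mono (Multiset.le_cons_self _ _)).ssubset_of_ne ?_
          exact fun h' => h h'.symm
        have := Finset.card_lt_card h6
        omega

theorem exists_stab (q : ℕ) (M : Multiset ℕ) (h : (SSq q M).card ≤ M.card) :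
    ∃ w ∈ M, ∀ x ∈ SSq q M, x + w ∈ SSq q M := by
  obtain ⟨T, hT, hS, hk⟩ := growth q M
  obtain ⟨T1, hT1, h1, h2⟩ := hk _ le_rfl
  have h3 : (SSq q T1).card ≤ (SSq q T).card := Finset.card_le_card (SSq_mono hT1)
  rw [hS] at h3
  have h4 : T.card < M.card := by omega
  have h5 : 0 < (M - T).card := by
    rw [Multiset.card_sub hT]; omega
  obtain ⟨w, hw⟩ := Multiset.card_pos_iff_exists_mem.1 h5
  refine ⟨w, Multiset.mem_of_le (Multiset.sub_le_self _ _) hw, ?_⟩
  intro x hx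
  have h6 : w ::ₘ T ≤ M := by
    have : w ::ₘ T ≤ (M - T) + T := by
      rw [← Multiset.singleton_add]
      exact add_le_add (Multiset.singleton_le.2 hw) le_rfl
    rwa [tsub_add_cancel_of_le hT] at this
  rw [← hS] at hx
  exact SSq_mono h6 (SSq_cons_mem hx)

theorem card_mul_le {X : Set ℕ} {D q c β : ℕ} (hX : DSep D X) (hq : 1 ≤ q) (hDq : D ≤ q)
    (Λ : Finset (ZMod q))
    (hcov : ∀ z : ℕ, β ≤ z → z ≤ β + 2 * q → ((z : ZMod q) - c) ∈ Λ → z ∈ X) :
    Λ.card * D ≤ q := by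
  have : NeZero q := ⟨by omega⟩
  have key : ∀ x ∈ Λ, ∀ x' ∈ Λ, ∀ t t' : ℕ, t < t' → t' < D →
      x + (t : ZMod q) = x' + t' → False := by
    intro x hx x' hx' t t' htt ht' heq
    set y : ZMod q := (c : ZMod q) + x' - β with hy
    have hyv : y.val < q := ZMod.val_lt y
    have hz1 : ((β + y.val : ℕ) : ZMod q) - c = x' := by
      push_cast
      rw [ZMod.natCast_zmod_val, hy]
      ring
    have hz2 : ((β + y.val + (t' - t) : ℕ) : ZMod q) - c = x := by
      have h1 : x = x' + ((t' - t : ℕ) : ZMod q) := by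
        rw [Nat.cast_sub htt.le]
        linear_combination heq
      rw [h1, ← hz1]
      push_cast
      ring
    have h1 : (β + y.val) ∈ X := hcov _ (by omega) (by omega) (by rw [hz1]; exact hx')
    have h2 : (β + y.val + (t' - t)) ∈ X := hcov _ (by omega) (by omega) (by rw [hz2]; exact hx)
    have h3 := hX _ h1 _ h2 (by omega)
    omega
  have h1 : (Λ ×ˢ Finset.range D).card ≤ (Finset.univ : Finset (ZMod q)).card := by
    apply Finset.card_le_card_of_injOn (fun p => p.1 + (p.2 : ZMod q))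
    · intro p _
      exact Finset.mem_coe.2 (Finset.mem_univ _)
    · rintro ⟨x, t⟩ hx ⟨x', t'⟩ hx' heq
      simp only [Finset.coe_product, Set.mem_prod, Finset.mem_coe, Finset.mem_range] at hx hx'
      simp only at heq
      rcases lt_trichotomy t t' with h | h | h
      · exact (key x hx.1 x' hx'.1 t t' h hx'.2 heq).elim
      · subst h
        simp only [Prod.mk.injEq, and_true]
        exact add_right_cancel heq
      · exact (key x' hx'.1 x hx.1 t' t h hx.2 heq.symm).elim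
  rw [Finset.card_product, Finset.card_range, Finset.card_univ, ZMod.card] at h1
  exact h1

theorem sum_le_card_mul {T : Multiset ℕ} {L : ℕ} (h : ∀ w ∈ T, w ≤ L) : T.sum ≤ T.card * L := by
  have := Multiset.sum_le_card_nsmul T L h
  simpa using this

theorem extend {M R : Multiset ℕ} {e α n L : ℕ} (hAP : AP (SS M) e α n)
    (hR : ∀ w ∈ R, e ∣ w ∧ 1 ≤ w ∧ w ≤ L) (hL : L ≤ e * (n + 1)) :
    AP (SS (M + R)) e α (n + R.card) := by
  induction R using Multiset.induction_on with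
  | empty => simpa using hAP
  | cons w R ih =>
    have ih' := ih (fun x hx => hR x (Multiset.mem_cons_of_mem hx))
    obtain ⟨⟨w', hw'⟩, h1, h2⟩ := hR w (Multiset.mem_cons_self _ _)
    have he : 0 < e := by
      rcases Nat.eq_zero_or_pos e with h | h
      · subst h; simp at hw'; omega
      · exact h
    have hw1 : 1 ≤ w' := by
      rcases Nat.eq_zero_or_pos w' with h | h
      · subst h; simp at hw'; omega
      · exact h
    have hw2 : w' ≤ n + 1 := by
      have : e * w' ≤ e * (n + 1) := by omega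
      exact Nat.le_of_mul_le_mul_left this he
    intro i hi
    rw [Multiset.card_cons] at hi
    rw [Multiset.add_cons]
    rcases Nat.lt_or_ge i (n + R.card + 1) with h | h
    · exact SS_mono (Multiset.le_cons_self _ _) (ih' i (by omega))
    · have h3 := mem_SS_cons (w := w) (ih' (i - w') (by omega))
      have h4 : w + (α + (i - w') * e) = α + i * e := by
        obtain ⟨j, rfl⟩ : ∃ j, i = j + w' := ⟨i - w', by omega⟩
        rw [Nat.add_sub_cancel, hw']
        ring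
      rwa [h4] at h3

end Pool.Agent.Lib.MP_d49ebf_nt
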