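import Mathlib
import Pool.Agent.Lib.MP_d49ebf_nt.Sums

set_option autoImplicit false

/-!
The absorbing lemma.
-/

namespace Pool.Agent.Lib.MP_d49ebf_nt

open Finset

/-- The integers stabilising a finite set of residues modulo `q`. -/
def stab (q : ℕ) (Λ : Finset (ZMod q)) : AddSubgroup ℤ where
  carrier := {h : ℤ | ∀ x : ZMod q, x ∈ Λ ↔ x + (h : ZMod q) ∈ Λ}
  zero_mem' := by intro x; simp
  add_mem' := by
    intro a b ha hb x
    rw [ha x, hb (x + (a : ZMod q))]
    push_cast
    rw [add_assoc]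
  neg_mem' := by
    intro a ha x
    rw [ha (x + ((-a : ℤ) : ZMod q))]
    push_cast
    rw [neg_add_cancel_right]

theorem mem_stab_of_subset {q : ℕ} {Λ : Finset (ZMod q)} {h : ℤ}
    (hs : ∀ x ∈ Λ, x + (h : ZMod q) ∈ Λ) : h ∈ stab q Λ := by
  intro x
  constructor
  · exact hs x
  · intro hx
    have h1 : Λ.image (fun x => x + (h : ZMod q)) ⊆ Λ := by
      intro y hy
      rw [Finset.mem_image] at hy
      obtain ⟨z, hz, rfl⟩ := hy
      exact hs z hz
    have h2 : Λ.image (fun x => x + (h : ZMod q)) = Λ := by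
      apply Finset.eq_of_subset_of_card_le h1
      rw [Finset.card_image_of_injective _ (add_left_injective _)]
    rw [← h2, Finset.mem_image] at hx
    obtain ⟨z, hz, hzx⟩ := hx
    have := add_right_cancel hzx
    rwa [← this]

theorem absorb {M1 M2 : Multiset ℕ} {D L q α n : ℕ} (hD : 1 ≤ D) (hq : 1 ≤ q)
    (hsep : DSep D (SS (M1 + M2))) (hL : ∀ w ∈ M2, 1 ≤ w ∧ w ≤ L) (hAP : AP (SS M1) q α n)
    (hn : (q / D) * L + L + 3 * q ≤ q * n) :
    ∃ e α' n' : ℕ, 1 ≤ e ∧ e ∣ q ∧ α ≤ α' ∧ e ∣ α' - α ∧ AP (SS (M1 + M2)) e α' n' ∧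
      D * ((M2.filter (fun w => ¬ e ∣ w)).card + 1) ≤ e ∧
      q * n + e * M2.card ≤ e * n' + (q / D) * L + e + e * (q / D) := by
  have hn3 : 3 ≤ n := by
    have : q * 3 ≤ q * n := by omega
    exact Nat.le_of_mul_le_mul_left this (by omega)
  -- `D ≤ q`
  have hDq : D ≤ q := by
    have h0 := hAP.mono (SS_mono (Multiset.le_add_right M1 M2)) le_rfl 0 (by omega)
    have h1 := hAP.mono (SS_mono (Multiset.le_add_right M1 M2)) le_rfl 1 (by omega)
    have := hsep _ h0 _ h1 (by omega)
    omega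
  obtain ⟨T, hT, hS, hk⟩ := growth q M2
  -- covering
  have hcov : ∀ T1 ≤ M2, ∀ z : ℕ, α + T1.sum ≤ z → z ≤ α + q * n →
      ((z : ZMod q) - α) ∈ SSq q T1 → z ∈ SS (M1 + T1) := by
    intro T1 hT1 z hz1 hz2 hz3
    rw [mem_SSq] at hz3
    obtain ⟨T', hT', hz3⟩ := hz3
    have hs : T'.sum ≤ T1.sum := by
      rw [← tsub_add_cancel_of_le hT', Multiset.sum_add]
      exact Nat.le_add_left _ _
    have h1 : (q : ℤ) ∣ ((z : ℤ) - α - ((T'.sum : ℕ) : ℤ)) := by
      rw [← ZMod.intCast_zmod_eq_zero_iff_dvd]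
      simp only [Int.cast_sub, Int.cast_natCast]
      rw [hz3]; ring
    have h2 : (q : ℤ) ∣ ((z - α - T'.sum : ℕ) : ℤ) := by
      have : ((z - α - T'.sum : ℕ) : ℤ) = (z : ℤ) - α - T'.sum := by omega
      rw [this]; exact h1
    obtain ⟨i, hi⟩ := Int.natCast_dvd_natCast.1 h2
    have hin : i ≤ n := by
      have : q * i ≤ q * n := by omega
      exact Nat.le_of_mul_le_mul_left this (by omega)
    have h3 : α + i * q ∈ SS M1 := hAP i hin
    have h4 : α + i * q + T'.sum ∈ SS (M1 + T1) := SS_add h3 ⟨T', hT', rfl⟩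
    have h5 : α + i * q + T'.sum = z := by
      have : i * q = q * i := mul_comm _ _
      omega
    rwa [h5] at h4
  have hTL : ∀ T1 ≤ M2, T1.sum ≤ T1.card * L := fun T1 hT1 =>
    sum_le_card_mul fun w hw => (hL w (Multiset.mem_of_le hT1 hw)).2
  -- bound on `card T`
  have hTcard : T.card < q / D := by
    by_contra hcon
    push Not at hcon
    obtain ⟨T1, hT1, hc, hc2⟩ := hk (q / D) hcon
    have hT1M := hT1.trans hT
    have h1 : (SSq q T1).card * D ≤ q := by
      apply card_mul_le (c := α) (β := α + T1.sum) hsep hq hDq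
      intro z hz1 hz2 hz3
      apply SS_mono (add_le_add le_rfl hT1M)
      apply hcov T1 hT1M z hz1 _ hz3
      have := hTL T1 hT1M
      rw [hc] at this
      omega
    have h2 : (q / D + 1) * D ≤ q := le_trans (Nat.mul_le_mul_right _ hc2) h1
    have h3 := Nat.lt_mul_div_succ q (show 0 < D by omega)
    rw [mul_comm] at h3
    omega
  have hTsum : T.sum ≤ (q / D) * L := (hTL T hT).trans (Nat.mul_le_mul_right _ hTcard.le)
  set Λ := SSq q M2 with hΛ
  have hΛ0 : (0 : ZMod q) ∈ Λ := mem_SSq.2 ⟨0, Multiset.zero_le _, by simp⟩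
  have hcovΛ : ∀ z : ℕ, α + T.sum ≤ z → z ≤ α + q * n → ((z : ZMod q) - α) ∈ Λ →
      z ∈ SS (M1 + T) := by
    intro z h1 h2 h3
    exact hcov T hT z h1 h2 (by rw [hS]; exact h3)
  -- the stabiliser
  obtain ⟨e0, he0⟩ := Int.subgroup_cyclic (stab q Λ)
  have hmem : ∀ h : ℤ, h ∈ stab q Λ ↔ ((e0.natAbs : ℕ) : ℤ) ∣ h := by
    intro h
    rw [he0, AddSubgroup.mem_closure_singleton, Int.natAbs_dvd]
    constructor
    · rintro ⟨n, rfl⟩
      exact ⟨n, by simp [mul_comm]⟩
    · rintro ⟨n, rfl⟩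
      exact ⟨n, by simp [mul_comm]⟩
  set e := e0.natAbs with he
  have heq : e ∣ q := by
    have : ((q : ℕ) : ℤ) ∈ stab q Λ := by
      apply mem_stab_of_subset
      intro x hx
      simpa using hx
    rw [hmem] at this
    exact Int.natCast_dvd_natCast.1 this
  have he1 : 1 ≤ e := Nat.pos_of_dvd_of_pos heq (by omega)
  have heq' : e ≤ q := Nat.le_of_dvd (by omega) heq
  have hmult : ∀ j : ℕ, T.sum ≤ j * e → j * e ≤ q * n → α + j * e ∈ SS (M1 + T) := by
    intro j h1 h2
    apply hcovΛ _ (by omega) (by omega)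
    have h3 : ((α + j * e : ℕ) : ZMod q) - α = 0 + (((j : ℤ) * (e : ℤ) : ℤ) : ZMod q) := by
      push_cast; ring
    rw [h3]
    exact ((hmem _).2 (Dvd.intro_left _ rfl) 0).1 hΛ0
  have claim1 : ∀ z : ℤ, (z : ZMod e) ∈ SSq e M2 → (z : ZMod q) ∈ Λ := by
    intro z hz
    rw [mem_SSq] at hz
    obtain ⟨T', hT', hz⟩ := hz
    have h1 : (e : ℤ) ∣ z - ((T'.sum : ℕ) : ℤ) := by
      rw [← ZMod.intCast_zmod_eq_zero_iff_dvd]
      simp only [Int.cast_sub, Int.cast_natCast]
      rw [hz]; ring
    rw [← hmem] at h1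
    have h2 : ((T'.sum : ℕ) : ZMod q) ∈ Λ := mem_SSq.2 ⟨T', hT', rfl⟩
    have h3 := (h1 ((T'.sum : ℕ) : ZMod q)).1 h2
    have h4 : ((T'.sum : ℕ) : ZMod q) + ((z - ((T'.sum : ℕ) : ℤ) : ℤ) : ZMod q) = (z : ZMod q) := by
      simp only [Int.cast_sub, Int.cast_natCast]; ring
    rwa [h4] at h3
  have claim2 : D * ((M2.filter (fun w => ¬ e ∣ w)).card + 1) ≤ e := by
    by_contra hcon
    push Not at hcon
    set W := M2.filter (fun w => ¬ e ∣ w) with hW
    have hWM : W ≤ M2 := Multiset.filter_le _ _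
    have hDe : D ≤ e := by
      obtain ⟨j, hj⟩ : ∃ j, j = T.sum / e := ⟨_, rfl⟩
      have hd := Nat.lt_mul_div_succ T.sum (show 0 < e by omega)
      have hd2 := Nat.mul_div_le T.sum e
      rw [← hj] at hd hd2
      have hd3 : e * (j + 1) = j * e + e := by ring
      have hd4 : (j + 1) * e = j * e + e := by ring
      have hd5 : (j + 2) * e = j * e + e + e := by ring
      have hd6 : e * j = j * e := mul_comm _ _
      have h1 := SS_mono (add_le_add (le_refl M1) hT) (hmult (j + 1) (by omega) (by omega))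
      have h2 := SS_mono (add_le_add (le_refl M1) hT) (hmult (j + 2) (by omega) (by omega))
      have h3 := hsep _ h1 _ h2 (by omega)
      omega
    have h1 : (SSq e M2).card * D ≤ e := by
      apply card_mul_le (c := α) (β := α + T.sum) hsep he1 hDe
      intro z hz1 hz2 hz3
      apply SS_mono (add_le_add le_rfl hT)
      apply hcovΛ z hz1 (by omega)
      have := claim1 ((z : ℤ) - α) (by push_cast; exact hz3)
      push_cast at this
      exact this
    have hSW : SSq e M2 = SSq e W := by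
      apply Finset.Subset.antisymm
      · intro x hx
        rw [mem_SSq] at hx ⊢
        obtain ⟨T', hT', rfl⟩ := hx
        refine ⟨T'.filter (fun w => ¬ e ∣ w), Multiset.filter_le_filter _ hT', ?_⟩
        have h2 : T'.sum = (T'.filter (fun w => e ∣ w)).sum + (T'.filter (fun w => ¬ e ∣ w)).sum := by
          rw [← Multiset.sum_add, Multiset.filter_add_not]
        have h3 : e ∣ (T'.filter (fun w => e ∣ w)).sum := by
          apply Multiset.dvd_sum
          intro x hx
          exact (Multiset.mem_filter.1 hx).2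
        rw [h2, Nat.cast_add, (ZMod.natCast_eq_zero_iff _ _).2 h3, zero_add]
      · exact SSq_mono hWM
    have h2 : (SSq e W).card ≤ W.card := by
      rw [← hSW]
      by_contra h3
      push Not at h3
      have h4 : (W.card + 1) * D ≤ (SSq e M2).card * D := Nat.mul_le_mul_right _ h3
      have h5 : D * (W.card + 1) = (W.card + 1) * D := mul_comm _ _
      omega
    obtain ⟨w, hw, hst⟩ := exists_stab e W h2
    rw [← hSW] at hst
    have h3 : ((w : ℕ) : ℤ) ∈ stab q Λ := by
      apply mem_stab_of_subset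
      intro x hx
      rw [hΛ, mem_SSq] at hx
      obtain ⟨T', hT', rfl⟩ := hx
      have h4 := hst ((T'.sum : ℕ) : ZMod e) (mem_SSq.2 ⟨T', hT', rfl⟩)
      have h5 := claim1 (((T'.sum : ℕ) : ℤ) + ((w : ℕ) : ℤ))
        (by simp only [Int.cast_add, Int.cast_natCast]; exact h4)
      simp only [Int.cast_add, Int.cast_natCast] at h5 ⊢
      exact h5
    rw [hmem] at h3
    have h4 : e ∣ w := Int.natCast_dvd_natCast.1 h3
    rw [hW, Multiset.mem_filter] at hw
    exact hw.2 h4
  -- the run modulo `e`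
  set k0 := T.sum / e + 1 with hk0
  have hk1 : T.sum ≤ e * k0 := (Nat.lt_mul_div_succ T.sum (show 0 < e by omega)).le
  have hk2 : e * k0 ≤ T.sum + e := by
    have := Nat.mul_div_le T.sum e
    rw [hk0]
    have : e * (T.sum / e + 1) = e * (T.sum / e) + e := by ring
    omega
  obtain ⟨c, hc⟩ := heq
  have hc' : q * n = e * (c * n) := by rw [hc]; ring
  have hk3 : k0 ≤ c * n := by
    have : e * k0 ≤ e * (c * n) := by omega
    exact Nat.le_of_mul_le_mul_left this (by omega)
  have hrun : AP (SS (M1 + T)) e (α + e * k0) (c * n - k0) := by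
    intro i hi
    have h1 : e * (k0 + i) ≤ e * (c * n) := Nat.mul_le_mul_left _ (by omega)
    have h2 : e * (k0 + i) = (k0 + i) * e := mul_comm _ _
    have h3 : (k0 + i) * e = e * k0 + i * e := by ring
    have h4 := hmult (k0 + i) (by omega) (by omega)
    rw [h3, ← add_assoc] at h4
    exact h4
  have hdiv : ∀ w ∈ M2 - T, e ∣ w := by
    intro w hw
    have h6 : w ::ₘ T ≤ M2 := by
      have : w ::ₘ T ≤ (M2 - T) + T := by
        rw [← Multiset.singleton_add]
        exact add_le_add (Multiset.singleton_le.2 hw) le_rfl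
      rwa [tsub_add_cancel_of_le hT] at this
    have h7 : ((w : ℕ) : ℤ) ∈ stab q Λ := by
      apply mem_stab_of_subset
      intro x hx
      rw [← hS] at hx
      have := SSq_mono h6 (SSq_cons_mem hx)
      push_cast
      exact this
    rw [hmem] at h7
    exact Int.natCast_dvd_natCast.1 h7
  have hsub : e * (c * n - k0) = e * (c * n) - e * k0 := Nat.mul_sub _ _ _
  have hext := extend (R := M2 - T) (L := L) hrun
    (fun w hw => ⟨hdiv w hw, hL w (Multiset.mem_of_le (Multiset.sub_le_self _ _) hw)⟩) (by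
      have : e * (c * n - k0 + 1) = e * (c * n - k0) + e := by ring
      omega)
  rw [add_assoc, add_tsub_cancel_of_le hT] at hext
  refine ⟨e, α + e * k0, _, he1, ⟨c, hc⟩, Nat.le_add_right _ _, ?_, hext, claim2, ?_⟩
  · rw [Nat.add_sub_cancel_left]
    exact Dvd.intro _ rfl
  · rw [Multiset.card_sub hT]
    have hTM : T.card ≤ M2.card := Multiset.card_le_card hT
    have h1 : e * (c * n - k0 + (M2.card - T.card)) =
        e * (c * n - k0) + e * (M2.card - T.card) := by ring
    have h2 : e * (M2.card - T.card) = e * M2.card - e * T.card := Nat.mul_sub _ _ _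
    have h3 : e * T.card ≤ e * (q / D) := Nat.mul_le_mul_left _ hTcard.le
    have h4 : e * T.card ≤ e * M2.card := Nat.mul_le_mul_left _ hTM
    rw [h1, h2]
    omega

end Pool.Agent.Lib.MP_d49ebf_nt
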