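import Mathlib
import Pool.Agent.Lib.MP_d49ebf_nt.Absorb

set_option autoImplicit false

/-!
The main lemma: many small positive integers with `D`-separated subset sums have a long
arithmetic progression of subset sums.
-/

namespace Pool.Agent.Lib.MP_d49ebf_nt

open Finset

theorem exists_sub_card (M : Multiset ℕ) : ∀ k ≤ M.card, ∃ T ≤ M, T.card = k := by
  induction M using Multiset.induction_on with
  | empty =>
    intro k hk
    simp only [Multiset.card_zero, nonpos_iff_eq_zero] at hk
    exact ⟨0, le_rfl, by simp [hk]⟩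
  | cons w M ih =>
    intro k hk
    rw [Multiset.card_cons] at hk
    rcases Nat.lt_or_ge k (M.card + 1) with h | h
    · obtain ⟨T, hT, hc⟩ := ih k (by omega)
      exact ⟨T, hT.trans (Multiset.le_cons_self _ _), hc⟩
    · exact ⟨w ::ₘ M, le_rfl, by simp; omega⟩

theorem SS_pairs (P : Multiset (ℕ × ℕ)) (hP : ∀ p ∈ P, p.1 ≤ p.2) :
    ∀ x ∈ SS (P.map fun p => p.2 - p.1),
      (P.map Prod.fst).sum + x ∈ SS (P.map Prod.fst + P.map Prod.snd) := by
  induction P using Multiset.induction_on with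
  | empty => intro x hx; simpa using hx
  | cons p P ih =>
    have ih' := ih (fun p hp => hP p (Multiset.mem_cons_of_mem hp))
    have hp := hP p (Multiset.mem_cons_self _ _)
    have h1 : Multiset.map Prod.fst (p ::ₘ P) + Multiset.map Prod.snd (p ::ₘ P) =
        p.1 ::ₘ (p.2 ::ₘ (P.map Prod.fst + P.map Prod.snd)) := by
      rw [Multiset.map_cons, Multiset.map_cons, Multiset.cons_add, Multiset.add_cons]
    intro x hx
    rw [Multiset.map_cons, SS_cons_iff] at hx
    rw [h1, Multiset.map_cons, Multiset.sum_cons]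
    rcases hx with hx | ⟨y, hy, rfl⟩
    · have h2 := mem_SS_cons (w := p.1) (SS_mono (Multiset.le_cons_self _ p.2) (ih' x hx))
      rwa [← add_assoc] at h2
    · have h2 := SS_mono (Multiset.le_cons_self _ p.1) (mem_SS_cons (w := p.2) (ih' y hy))
      have h3 : p.2 + ((Multiset.map Prod.fst P).sum + y) =
          p.1 + (Multiset.map Prod.fst P).sum + (p.2 - p.1 + y) := by omega
      rwa [h3] at h2

theorem pairing (lam K m : ℕ) (hm : 1 ≤ m) (hlam : 1 ≤ lam) :
    ∀ (N : ℕ) (M : Multiset ℕ), M.card = N → (∀ x ∈ M, x / lam < K) → (∀ x, M.count x < m) →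
      ∃ P : Multiset (ℕ × ℕ), P.map Prod.fst + P.map Prod.snd ≤ M ∧
        (∀ p ∈ P, p.1 < p.2 ∧ p.2 < p.1 + lam) ∧ M.card ≤ 2 * P.card + K * (m - 1) := by
  intro N
  induction N using Nat.strong_induction_on with
  | _ N ih =>
  intro M hMN hb hc
  by_cases h : ∃ x ∈ M, ∃ y ∈ M, x < y ∧ x / lam = y / lam
  · obtain ⟨x, hx, y, hy, hxy, hxy'⟩ := h
    have hy' : y ∈ M.erase x := (Multiset.mem_erase_of_ne (by omega)).2 hy
    have h1 : M = x ::ₘ y ::ₘ ((M.erase x).erase y) := by
      rw [Multiset.cons_erase hy', Multiset.cons_erase hx]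
    have hle : (M.erase x).erase y ≤ M := (Multiset.erase_le _ _).trans (Multiset.erase_le _ _)
    have hcard : M.card = ((M.erase x).erase y).card + 2 := by
      conv_lhs => rw [h1]
      simp
    obtain ⟨P, hP1, hP2, hP3⟩ := ih ((M.erase x).erase y).card (by omega) _ rfl
      (fun z hz => hb z (Multiset.mem_of_le hle hz))
      (fun z => lt_of_le_of_lt (Multiset.count_le_of_le z hle) (hc z))
    refine ⟨(x, y) ::ₘ P, ?_, ?_, ?_⟩
    · rw [Multiset.map_cons, Multiset.map_cons, Multiset.cons_add, Multiset.add_cons]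
      conv_rhs => rw [h1]
      exact Multiset.cons_le_cons _ (Multiset.cons_le_cons _ hP1)
    · intro p hp
      rw [Multiset.mem_cons] at hp
      rcases hp with rfl | hp
      · refine ⟨hxy, ?_⟩
        have h2 := Nat.lt_mul_div_succ y (show 0 < lam by omega)
        have h3 := Nat.mul_div_le x lam
        have h4 : lam * (y / lam + 1) = lam * (y / lam) + lam := by ring
        rw [hxy'] at h3
        simp only
        omega
      · exact hP2 p hp
    · rw [Multiset.card_cons]
      omega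
  · push Not at h
    refine ⟨0, by simp, by simp, ?_⟩
    have h1 : M.toFinset.card ≤ K := by
      have : M.toFinset.card ≤ (Finset.range K).card := by
        apply Finset.card_le_card_of_injOn (fun x => x / lam)
        · intro x hx
          rw [Finset.mem_coe, Multiset.mem_toFinset] at hx
          exact Finset.mem_coe.2 (Finset.mem_range.2 (hb x hx))
        · intro x hx y hy hxy
          rw [Finset.mem_coe, Multiset.mem_toFinset] at hx hy
          simp only at hxy
          rcases lt_trichotomy x y with h2 | h2 | h2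
          · exact (h x hx y hy h2 hxy).elim
          · exact h2
          · exact (h y hy x hx h2 hxy.symm).elim
      rwa [Finset.card_range] at this
    have h2 : M.card = ∑ x ∈ M.toFinset, M.count x := (Multiset.toFinset_sum_count_eq M).symm
    have h3 : ∑ x ∈ M.toFinset, M.count x ≤ M.toFinset.card * (m - 1) := by
      have := Finset.sum_le_card_nsmul M.toFinset (fun x => M.count x) (m - 1)
        (fun x _ => by have := hc x; omega)
      simpa using this
    have h4 : M.toFinset.card * (m - 1) ≤ K * (m - 1) := Nat.mul_le_mul_right _ h1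
    simp only [Multiset.card_zero, mul_zero, zero_add]
    omega

theorem finish {M1 M2 : Multiset ℕ} {D L q α n : ℕ} (hD : 1 ≤ D) (hq : 1 ≤ q) (hqL : q ≤ L)
    (hsep : DSep D (SS (M1 + M2))) (hL : ∀ w ∈ M2, 1 ≤ w ∧ w ≤ L) (hAP : AP (SS M1) q α n)
    (hn : 2 * (L / D) + 5 ≤ n) :
    ∃ e α' n' : ℕ, 1 ≤ e ∧ e ≤ q ∧ AP (SS (M1 + M2)) e α' n' ∧ M2.card ≤ n' := by
  have hDq : D ≤ q := by
    have h0 := hAP.mono (SS_mono (Multiset.le_add_right M1 M2)) le_rfl 0 (by omega)
    have h1 := hAP.mono (SS_mono (Multiset.le_add_right M1 M2)) le_rfl 1 (by omega)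
    have := hsep _ h0 _ h1 (by omega)
    omega
  set l := L / D with hl
  have h1 : L < D * (l + 1) := Nat.lt_mul_div_succ L (by omega)
  have h2 : 1 ≤ q / D := (Nat.one_le_div_iff (by omega)).2 hDq
  have h3 : D * (q / D) ≤ q := Nat.mul_div_le q D
  have h4 : (q / D) * L ≤ q * (l + 1) := by
    calc (q / D) * L ≤ (q / D) * (D * (l + 1)) := Nat.mul_le_mul_left _ h1.le
      _ = (D * (q / D)) * (l + 1) := by ring
      _ ≤ q * (l + 1) := Nat.mul_le_mul_right _ h3
  have h5 : L ≤ (q / D) * L := Nat.le_mul_of_pos_left _ h2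
  have h6 : q * (2 * l + 5) ≤ q * n := Nat.mul_le_mul_left _ hn
  have h7 : q * (2 * l + 5) = 2 * (q * (l + 1)) + 3 * q := by ring
  obtain ⟨e, α', n', he1, heq, _, _, hAP', _, hfin⟩ := absorb (L := L) hD hq hsep hL hAP (by omega)
  have heq' : e ≤ q := Nat.le_of_dvd (by omega) heq
  refine ⟨e, α', n', he1, heq', hAP', ?_⟩
  have h8 : q / D ≤ l := Nat.div_le_div_right hqL
  have h9 : e * (q / D) ≤ q * l := Nat.mul_le_mul heq' h8
  have h10 : q * l ≤ q * (l + 1) := Nat.mul_le_mul_left _ (by omega)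
  have h11 : e * M2.card ≤ e * n' := by omega
  exact Nat.le_of_mul_le_mul_left h11 (by omega)

theorem main_lemma (D : ℕ) (hD : 1 ≤ D) : ∀ (L : ℕ) (M : Multiset ℕ), 1 ≤ L →
    (∀ w ∈ M, 1 ≤ w ∧ w ≤ L) → DSep D (SS M) → 4096 * L ≤ M.card * D →
    ∃ q α n : ℕ, 1 ≤ q ∧ q ≤ L ∧ AP (SS M) q α n ∧ M.card ≤ 2 * n := by
  intro L
  induction L using Nat.strong_induction_on with
  | _ L ih =>
  intro M hL1 hL hsep hN
  have hDw : ∀ w ∈ M, D ≤ w := by
    intro w hw
    have h1 : w ∈ SS M := ⟨{w}, Multiset.singleton_le.2 hw, by simp⟩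
    have := hsep 0 (zero_mem_SS M) w h1 (by have := hL w hw; omega)
    omega
  have hM0 : 0 < M.card := by
    rcases Nat.eq_zero_or_pos M.card with h | h
    · rw [h] at hN; omega
    · exact h
  obtain ⟨w0, hw0⟩ := Multiset.card_pos_iff_exists_mem.1 hM0
  have hDL : D ≤ L := (hDw w0 hw0).trans (hL w0 hw0).2
  obtain ⟨l, hl⟩ : ∃ l, l = L / D := ⟨_, rfl⟩
  have hl1 : 1 ≤ l := by rw [hl]; exact (Nat.one_le_div_iff (by omega)).2 hDL
  have hDl : D * l ≤ L := by rw [hl]; exact Nat.mul_div_le L D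
  obtain ⟨N, hNdef⟩ : ∃ N, N = M.card := ⟨_, rfl⟩
  rw [← hNdef] at hN
  have hNl : 4096 * l ≤ N := by
    have : D * (4096 * l) ≤ D * N := by nlinarith
    exact Nat.le_of_mul_le_mul_left this (by omega)
  obtain ⟨M', hM', hM'c⟩ := exists_sub_card M (N / 2) (by omega)
  obtain ⟨M'', rfl⟩ : ∃ M'', M = M' + M'' := ⟨M - M', (add_tsub_cancel_of_le hM').symm⟩
  rw [Multiset.card_add, hM'c] at hNdef
  have hM''L : ∀ w ∈ M'', 1 ≤ w ∧ w ≤ L := fun w hw => hL w (Multiset.mem_add.2 (Or.inr hw))
  have hM'L : ∀ w ∈ M', 1 ≤ w ∧ w ≤ L := fun w hw => hL w (Multiset.mem_add.2 (Or.inl hw))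
  by_cases hcase : ∃ v, 2 * l + 5 ≤ M'.count v
  · obtain ⟨v, hv⟩ := hcase
    have hvM : v ∈ M' := Multiset.count_pos.1 (by omega)
    have hrep : Multiset.replicate (2 * l + 5) v ≤ M' := Multiset.le_count_iff_replicate_le.1 hv
    have hAP : AP (SS M') v 0 (2 * l + 5) := by
      intro i hi
      refine ⟨Multiset.replicate i v, (Multiset.replicate_le_replicate _).2 hi |>.trans hrep, ?_⟩
      simp
    obtain ⟨e, α', n', he1, hev, hAP', hn'⟩ := finish hD (hM'L v hvM).1 (hM'L v hvM).2 hsep hM''L hAP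
      (by rw [hl])
    refine ⟨e, α', n', he1, hev.trans (hM'L v hvM).2, hAP', ?_⟩
    rw [Multiset.card_add, hM'c]
    omega
  · push Not at hcase
    obtain ⟨m, hm⟩ : ∃ m, m = 2 * l + 5 := ⟨_, rfl⟩
    rw [← hm] at hcase
    obtain ⟨N', hN'⟩ : ∃ N', N' = N / 2 := ⟨_, rfl⟩
    have hN'l : 2048 * l ≤ N' := by omega
    obtain ⟨K, hK⟩ : ∃ K, K = N' / (2 * m) := ⟨_, rfl⟩
    have hK1 : 2 * m * K ≤ N' := by rw [hK]; exact Nat.mul_div_le _ _
    have hK2 : 146 ≤ K := by
      rw [hK, Nat.le_div_iff_mul_le (by omega)]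
      omega
    obtain ⟨L1, hL1def⟩ : ∃ L1, L1 = L / K := ⟨_, rfl⟩
    have hlamK : L < K * (L1 + 1) := by rw [hL1def]; exact Nat.lt_mul_div_succ L (by omega)
    have hKL1 : K * L1 ≤ L := by rw [hL1def]; exact Nat.mul_div_le _ _
    obtain ⟨P, hP1, hP2, hP3⟩ := pairing (L1 + 1) K m (by omega) (by omega) _ M' rfl
      (fun x hx => by
        apply Nat.div_lt_of_lt_mul
        have := (hM'L x hx).2
        rw [mul_comm] at hlamK
        omega) hcase
    rw [hM'c, ← hN'] at hP3
    have hPc : N' ≤ 4 * P.card := by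
      have h1 : K * (m - 1) ≤ K * m := Nat.mul_le_mul_left _ (by omega)
      have h2 : 2 * m * K = 2 * (K * m) := by ring
      omega
    have hP0 : 0 < P.card := by omega
    obtain ⟨p0, hp0⟩ := Multiset.card_pos_iff_exists_mem.1 hP0
    have hL11 : 1 ≤ L1 := by
      have := hP2 p0 hp0
      omega
    have hL1L : L1 < L := by
      rw [hL1def]
      exact Nat.div_lt_self (by omega) (by omega)
    have hsub : ∀ x ∈ SS (P.map fun p => p.2 - p.1), (P.map Prod.fst).sum + x ∈ SS M' := by
      intro x hx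
      exact SS_mono hP1 (SS_pairs P (fun p hp => (hP2 p hp).1.le) x hx)
    have hMM : SS M' ⊆ SS (M' + M'') := SS_mono (Multiset.le_add_right _ _)
    obtain ⟨q, α, n, hq1, hqL1, hAP, hn⟩ := ih L1 hL1L (P.map fun p => p.2 - p.1) hL11
      (by
        intro w hw
        rw [Multiset.mem_map] at hw
        obtain ⟨p, hp, rfl⟩ := hw
        have := hP2 p hp
        omega)
      (by
        intro x hx y hy hxy
        have := hsep _ (hMM (hsub x hx)) _ (hMM (hsub y hy)) (by omega)
        omega)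
      (by
        rw [Multiset.card_map]
        have h1 : N ≤ P.card * K :=
          le_trans (show N ≤ P.card * 146 by omega) (Nat.mul_le_mul_left _ hK2)
        have h2 : K * (4096 * L1) ≤ K * (P.card * D) := by
          calc K * (4096 * L1) = 4096 * (K * L1) := by ring
            _ ≤ 4096 * L := Nat.mul_le_mul_left _ hKL1
            _ ≤ N * D := hN
            _ ≤ P.card * K * D := Nat.mul_le_mul_right _ h1
            _ = K * (P.card * D) := by ring
        exact Nat.le_of_mul_le_mul_left h2 (by omega))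
    rw [Multiset.card_map] at hn
    have hAP2 : AP (SS M') q ((P.map Prod.fst).sum + α) n := by
      intro i hi
      have := hsub _ (hAP i hi)
      rwa [← add_assoc] at this
    obtain ⟨e, α', n', he1, hev, hAP', hn'⟩ := finish hD hq1 (hqL1.trans hL1L.le) hsep hM''L hAP2
      (by rw [← hl]; omega)
    refine ⟨e, α', n', he1, hev.trans (hqL1.trans hL1L.le), hAP', ?_⟩
    rw [Multiset.card_add, hM'c]
    omega

end Pool.Agent.Lib.MP_d49ebf_nt
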