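import Mathlib
import Pool.Agent.Lib.MP_d49ebf_nt.MainLemma

set_option autoImplicit false

/-!
Density zero, greedy approximation and the final lemma.
-/

namespace Pool.Agent.Lib.MP_d49ebf_nt

open Finset

/-- The standing hypotheses on the increasing enumeration of a subset-sum-free set whose
consecutive gaps are eventually bounded by the index. -/
structure Hyp (a : ℕ → ℕ) : Prop where
  mono : StrictMono a
  sf : ∀ n : ℕ, ∀ S : Finset ℕ, (∀ i ∈ S, i < n) → ∑ i ∈ S, a i ≠ a n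
  gap : ∃ n0, ∀ n, n0 ≤ n → a (n + 1) ≤ a n + n

theorem Hyp.pos {a : ℕ → ℕ} (H : Hyp a) (n : ℕ) : 0 < a n := by
  rcases Nat.eq_zero_or_pos (a n) with h | h
  · exact (H.sf n ∅ (by simp) (by simp [h])).elim
  · exact h

theorem Hyp.density {a : ℕ → ℕ} (H : Hyp a) (C : ℕ) : ∃ N, ∀ n, N ≤ n → C * n ≤ a n := by
  set t : ℕ → ℕ := fun j => ∑ i ∈ range j, a i with ht
  refine ⟨(C + 1) * C + t C + 1 + C, ?_⟩
  intro n hn
  have htm : ∀ j ≤ C, t j ≤ t C := by
    intro j hj
    exact Finset.sum_le_sum_of_subset (by intro x; simp only [Finset.mem_range]; omega)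
  have key : ∀ m ∈ Ico C n, ∀ m' ∈ Ico C n, ∀ j j' : ℕ, j < j' → j' ≤ C →
      a m + t j = a m' + t j' → False := by
    intro m hm m' hm' j j' hjj hj' heq
    rw [Finset.mem_Ico] at hm hm'
    have h1 : t j' = t j + ∑ i ∈ Ico j j', a i := by
      rw [ht]; simp only
      rw [Finset.sum_range_add_sum_Ico _ hjj.le]
    have h2 : a m = a m' + ∑ i ∈ Ico j j', a i := by omega
    have h3 : m' ∉ Ico j j' := by
      rw [Finset.mem_Ico]; omega
    rcases Nat.lt_or_ge m' m with h | h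
    · apply H.sf m (insert m' (Ico j j'))
      · intro i hi
        rw [Finset.mem_insert, Finset.mem_Ico] at hi
        omega
      · rw [Finset.sum_insert h3, h2]
    · have h4 : a m ≤ a m' := H.mono.monotone h
      have h5 : ∑ i ∈ Ico j j', a i = 0 := by omega
      have h6 := H.sf
      rw [Finset.sum_eq_zero_iff] at h5
      have h7 := h5 j (by rw [Finset.mem_Ico]; omega)
      exact H.sf j ∅ (by simp) (by simp [h7])
  have hcard : (Ico C n ×ˢ range (C + 1)).card ≤ (range (a n + t C)).card := by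
    apply Finset.card_le_card_of_injOn (fun p => a p.1 + t p.2)
    · rintro ⟨m, j⟩ hp
      simp only [Finset.coe_product, Set.mem_prod, Finset.mem_coe, Finset.mem_Ico,
        Finset.mem_range] at hp
      simp only [Finset.coe_range, Set.mem_Iio]
      have h1 : a m < a n := H.mono hp.1.2
      have h2 := htm j (by omega)
      omega
    · rintro ⟨m, j⟩ hp ⟨m', j'⟩ hp' heq
      simp only [Finset.coe_product, Set.mem_prod, Finset.mem_coe, Finset.mem_range] at hp hp'
      simp only at heq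
      rcases lt_trichotomy j j' with h | h | h
      · exact (key m hp.1 m' hp'.1 j j' h (by omega) heq).elim
      · subst h
        have : a m = a m' := by omega
        rw [H.mono.injective this]
      · exact (key m' hp'.1 m hp.1 j' j h (by omega) heq.symm).elim
  rw [Finset.card_product, Finset.card_range, Nat.card_Ico, Finset.card_range] at hcard
  have h1 : (n - C) * (C + 1) = n * (C + 1) - C * (C + 1) := Nat.sub_mul _ _ _
  have h2 : n * (C + 1) = C * n + n := by ring
  have h3 : (C + 1) * C = C * (C + 1) := by ring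
  omega

theorem Hyp.le_add {a : ℕ → ℕ} (H : Hyp a) (i k : ℕ) : a i + k ≤ a (i + k) := by
  induction k with
  | zero => simp
  | succ k ih =>
    have : a (i + k) < a (i + (k + 1)) := H.mono (by omega)
    omega

/-- Sum of gaps. -/
theorem gap_sum {a : ℕ → ℕ} {n0 : ℕ} (h : ∀ n, n0 ≤ n → a (n + 1) ≤ a n + n) (i k : ℕ)
    (hi : n0 ≤ i) : a (i + k) ≤ a i + k * (i + k) := by
  induction k with
  | zero => simp
  | succ k ih =>
    have h1 := h (i + k) (by omega)
    have h2 : k * (i + k) ≤ k * (i + (k + 1)) := Nat.mul_le_mul_left _ (by omega)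
    have h3 : (k + 1) * (i + (k + 1)) = k * (i + (k + 1)) + (i + (k + 1)) := by ring
    have h4 : a (i + (k + 1)) = a (i + k + 1) := rfl
    omega

/-- For large `x` the interval `(x/(q+1), x/q]` contains many terms with odd index. -/
theorem Hyp.many_odd {a : ℕ → ℕ} (H : Hyp a) (q : ℕ) (hq : 1 ≤ q) :
    ∃ X0, ∀ x, X0 ≤ x → ∃ S : Finset ℕ, 2 * q - 1 ≤ S.card ∧
      ∀ i ∈ S, i % 2 = 1 ∧ q * a i ≤ x ∧ x < (q + 1) * a i := by
  obtain ⟨n0, hn0⟩ := H.gap
  obtain ⟨N1, hN1⟩ := H.density (16 * q ^ 2)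
  set I0 := n0 + N1 + 8 * q with hI0
  refine ⟨q * a (2 * I0 + 1), ?_⟩
  intro x hx
  have hex : ∃ i, x < q * a (2 * i + 1) := by
    refine ⟨x, ?_⟩
    have h1 := H.le_add 0 (2 * x + 1)
    rw [zero_add] at h1
    have h2 : 1 * a (2 * x + 1) ≤ q * a (2 * x + 1) := Nat.mul_le_mul_right _ hq
    omega
  classical
  obtain ⟨i, hi, hmin⟩ : ∃ i, x < q * a (2 * i + 1) ∧ ∀ j < i, q * a (2 * j + 1) ≤ x :=
    ⟨Nat.find hex, Nat.find_spec hex, fun j hj => not_lt.1 (Nat.find_min hex hj)⟩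
  have hiI : I0 < i := by
    by_contra hcon
    push Not at hcon
    have h1 : a (2 * i + 1) ≤ a (2 * I0 + 1) := H.mono.monotone (by omega)
    have h2 : q * a (2 * i + 1) ≤ q * a (2 * I0 + 1) := Nat.mul_le_mul_left _ h1
    omega
  -- the smallest of the chosen terms is large
  obtain ⟨r, hr⟩ : ∃ r, i = r + 2 * q := ⟨i - 2 * q, by omega⟩
  have hA : x < (q + 1) * a (2 * r + 1) := by
    have h1 := gap_sum hn0 (2 * r + 1) (4 * q) (by omega)
    have h2 : 2 * r + 1 + 4 * q = 2 * i + 1 := by omega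
    rw [h2] at h1
    have h3 := hN1 (2 * r + 1) (by omega)
    have h4 : 4 * q ^ 2 * (2 * i + 1) ≤ 16 * q ^ 2 * (2 * r + 1) := by
      have : 2 * i + 1 ≤ 4 * (2 * r + 1) := by omega
      calc 4 * q ^ 2 * (2 * i + 1) ≤ 4 * q ^ 2 * (4 * (2 * r + 1)) := Nat.mul_le_mul_left _ this
        _ = 16 * q ^ 2 * (2 * r + 1) := by ring
    have h5 : q * a (2 * i + 1) ≤ q * (a (2 * r + 1) + 4 * q * (2 * i + 1)) :=
      Nat.mul_le_mul_left _ h1
    have h6 : q * (a (2 * r + 1) + 4 * q * (2 * i + 1)) =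
        q * a (2 * r + 1) + 4 * q ^ 2 * (2 * i + 1) := by ring
    have h7 : (q + 1) * a (2 * r + 1) = q * a (2 * r + 1) + a (2 * r + 1) := by ring
    omega
  refine ⟨(Ico r i).image (fun j => 2 * j + 1), ?_, ?_⟩
  · rw [Finset.card_image_of_injective _ (fun x y h => by
      have h' : 2 * x + 1 = 2 * y + 1 := h
      omega), Nat.card_Ico]
    omega
  · intro j hj
    rw [Finset.mem_image] at hj
    obtain ⟨k, hk, rfl⟩ := hj
    rw [Finset.mem_Ico] at hk
    refine ⟨by omega, hmin k hk.2, lt_of_lt_of_le hA ?_⟩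
    exact Nat.mul_le_mul_left _ (H.mono.monotone (by omega))

/-- Greedy approximation of a multiple of `q` by a sum of terms with odd index. -/
theorem Hyp.greedy {a : ℕ → ℕ} (H : Hyp a) (q : ℕ) (hq : 1 ≤ q) :
    ∃ G, ∀ x, q ∣ x → ∃ B : Finset ℕ, (∀ i ∈ B, i % 2 = 1 ∧ q * a i ≤ x) ∧
      q ∣ ∑ i ∈ B, a i ∧ ∑ i ∈ B, a i ≤ x ∧ x < ∑ i ∈ B, a i + G := by
  obtain ⟨X0, hX0⟩ := H.many_odd q hq
  refine ⟨X0 + 1, ?_⟩
  intro x
  induction x using Nat.strong_induction_on with
  | _ x ih =>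
  intro hqx
  rcases Nat.lt_or_ge x X0 with hx | hx
  · exact ⟨∅, by simp, by simp, by simp, by simp; omega⟩
  · obtain ⟨S, hS, hS2⟩ := hX0 x hx
    obtain ⟨t, htS, htc, htq⟩ := Int.erdos_ginzburg_ziv (s := S) (n := q) (fun i => (a i : ℤ)) hS
    have htq' : q ∣ ∑ i ∈ t, a i := by
      have : ((q : ℕ) : ℤ) ∣ ((∑ i ∈ t, a i : ℕ) : ℤ) := by push_cast; exact htq
      exact Int.natCast_dvd_natCast.1 this
    obtain ⟨i0, hi0⟩ : t.Nonempty := Finset.card_pos.1 (by omega)
    have hsum : ∑ i ∈ t, a i ≤ x := by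
      have h1 : q * ∑ i ∈ t, a i ≤ q * x := by
        rw [Finset.mul_sum]
        have := Finset.sum_le_card_nsmul t (fun i => q * a i) x (fun i hi => (hS2 i (htS hi)).2.1)
        rw [htc] at this
        simpa using this
      exact Nat.le_of_mul_le_mul_left h1 (by omega)
    have hge : ∀ i ∈ t, a i ≤ ∑ i ∈ t, a i := fun i hi =>
      Finset.single_le_sum (f := fun i => a i) (fun _ _ => Nat.zero_le _) hi
    have hpos : 0 < ∑ i ∈ t, a i := by
      have h1 := hge i0 hi0
      have h2 := (hS2 i0 (htS hi0)).2.2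
      rcases Nat.eq_zero_or_pos (a i0) with h | h
      · rw [h] at h2; omega
      · omega
    obtain ⟨B, hB1, hB2, hB3, hB4⟩ := ih (x - ∑ i ∈ t, a i) (by omega) (Nat.dvd_sub hqx htq')
    have hdisj : Disjoint t B := by
      rw [Finset.disjoint_left]
      intro i hi hiB
      have h1 := hge i hi
      have h2 := (hS2 i (htS hi)).2.2
      have h3 := (hB1 i hiB).2
      have h4 : (q + 1) * a i = q * a i + a i := by ring
      omega
    refine ⟨t ∪ B, ?_, ?_, ?_, ?_⟩
    · intro i hi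
      rw [Finset.mem_union] at hi
      rcases hi with hi | hi
      · exact ⟨(hS2 i (htS hi)).1, (hS2 i (htS hi)).2.1⟩
      · exact ⟨(hB1 i hi).1, (hB1 i hi).2.trans (Nat.sub_le _ _)⟩
    · rw [Finset.sum_union hdisj]
      exact dvd_add htq' hB2
    · rw [Finset.sum_union hdisj]
      omega
    · rw [Finset.sum_union hdisj]
      omega

theorem Hyp.final {a : ℕ → ℕ} (H : Hyp a) (q : ℕ) (hq : 1 ≤ q)
    (h : ∀ T : ℕ, ∃ (F : Finset ℕ) (s0 : ℕ), q ∣ s0 ∧ (∀ i ∈ F, i % 2 = 0) ∧
      ∀ t ≤ T, ∃ F' ⊆ F, ∑ i ∈ F', a i = s0 + t * q) : False := by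
  obtain ⟨G, hG⟩ := H.greedy q hq
  obtain ⟨F, s0, hqs, hF, hT⟩ := h G
  obtain ⟨J, hJ⟩ : ∃ J, ∀ i ∈ F, i < J := ⟨F.sup id + 1, fun i hi => by
    have := Finset.le_sup (f := id) hi
    simp only [id] at this
    omega⟩
  set idx : ℕ → ℕ := fun t => 2 * (J + t * (s0 + G + 1)) with hidx
  have hNe : NeZero q := ⟨by omega⟩
  obtain ⟨t, ht, t', ht', hne, hmod⟩ := Finset.exists_ne_map_eq_of_card_lt_of_maps_to
    (s := range (q + 1)) (t := (Finset.univ : Finset (ZMod q)))
    (by rw [Finset.card_range, Finset.card_univ, ZMod.card]; omega)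
    (f := fun t => ((a (idx t) : ℕ) : ZMod q)) (fun _ _ => by simp)
  wlog hlt : t < t' generalizing t t'
  · exact this t' ht' t ht hne.symm hmod.symm (by omega)
  have hidx1 : idx t + 2 * (s0 + G + 1) ≤ idx t' := by
    rw [hidx]; simp only
    have h1 : (t + 1) * (s0 + G + 1) ≤ t' * (s0 + G + 1) := Nat.mul_le_mul_right _ hlt
    have h2 : (t + 1) * (s0 + G + 1) = t * (s0 + G + 1) + (s0 + G + 1) := by ring
    omega
  have ha1 : a (idx t) + 2 * (s0 + G + 1) ≤ a (idx t') :=
    (H.le_add _ _).trans (H.mono.monotone hidx1)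
  have hdvd : q ∣ a (idx t') - a (idx t) := by
    have h1 := (ZMod.natCast_eq_natCast_iff _ _ _).1 hmod
    exact (Nat.modEq_iff_dvd' (by omega)).1 h1
  obtain ⟨B, hB1, hB2, hB3, hB4⟩ := hG (a (idx t') - a (idx t) - s0) (Nat.dvd_sub hdvd hqs)
  set x := a (idx t') - a (idx t) - s0 with hx
  have hr : q ∣ x - ∑ i ∈ B, a i := Nat.dvd_sub (Nat.dvd_sub hdvd hqs) hB2
  obtain ⟨t0, ht0⟩ := hr
  have ht0G : t0 ≤ G := by
    have h1 : 1 * t0 ≤ q * t0 := Nat.mul_le_mul_right _ hq
    omega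
  obtain ⟨F', hF', hsum⟩ := hT t0 ht0G
  have hd1 : Disjoint B F' := by
    rw [Finset.disjoint_left]
    intro i hi hi'
    have h1 := (hB1 i hi).1
    have h2 := hF i (hF' hi')
    omega
  have hd2 : idx t ∉ B ∪ F' := by
    rw [Finset.mem_union]
    rintro (hi | hi)
    · have h1 := (hB1 _ hi).1
      simp only [hidx] at h1
      omega
    · have h1 := hJ _ (hF' hi)
      simp only [hidx] at h1
      omega
  apply H.sf (idx t') (insert (idx t) (B ∪ F'))
  · intro i hi
    rw [Finset.mem_insert, Finset.mem_union] at hi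
    rcases hi with rfl | hi | hi
    · omega
    · have h1 := (hB1 i hi).2
      have h2 : 1 * a i ≤ q * a i := Nat.mul_le_mul_right _ hq
      have h3 : a i < a (idx t') := by
        have := H.pos (idx t)
        omega
      exact H.mono.lt_iff_lt.1 h3
    · have h1 := hJ _ (hF' hi)
      have h2 : 2 * J ≤ idx t' := by simp only [hidx]; omega
      omega
  · rw [Finset.sum_insert hd2, Finset.sum_union hd1, hsum]
    have h1 : t0 * q = q * t0 := mul_comm _ _
    omega

end Pool.Agent.Lib.MP_d49ebf_nt
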