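import Mathlib
import Pool.Agent.Lib.MP_d49ebf_nt.Final

set_option autoImplicit false

/-!
The two cases of the proof.
-/

namespace Pool.Agent.Lib.MP_d49ebf_nt

open Finset

theorem pigeon {ι : Type*} (S : Finset ι) (P : ι → ℕ → Prop)
    (hanti : ∀ i k k', k ≤ k' → P i k' → P i k) (h : ∀ k, ∃ i ∈ S, P i k) :
    ∃ i ∈ S, ∀ k, P i k := by
  by_contra hcon
  push Not at hcon
  have h1 : ∀ i, ∃ k, i ∈ S → ¬ P i k := by
    intro i
    by_cases hi : i ∈ S
    · obtain ⟨k, hk⟩ := hcon i hi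
      exact ⟨k, fun _ => hk⟩
    · exact ⟨0, fun h => (hi h).elim⟩
  choose k hk using h1
  obtain ⟨i, hi, hP⟩ := h (S.sup k)
  exact hk i hi (hanti i _ _ (Finset.le_sup hi) hP)

/-- `P q T`: some finite set of even indices has `T + 1` consecutive multiples of `q` among its
subset sums. -/
def Good (a : ℕ → ℕ) (q T : ℕ) : Prop :=
  ∃ (F : Finset ℕ) (s0 : ℕ), q ∣ s0 ∧ (∀ i ∈ F, i % 2 = 0) ∧
    ∀ t ≤ T, ∃ F' ⊆ F, ∑ i ∈ F', a i = s0 + t * q

theorem Good.anti {a : ℕ → ℕ} {q T T' : ℕ} (h : T ≤ T') (hg : Good a q T') : Good a q T := by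
  obtain ⟨F, s0, h1, h2, h3⟩ := hg
  exact ⟨F, s0, h1, h2, fun t ht => h3 t (ht.trans h)⟩

/-- Subset sums of terms with even index at least `k` are `D`-separated. -/
def Sep (a : ℕ → ℕ) (D k : ℕ) : Prop :=
  ∀ T T' : Finset ℕ, (∀ i ∈ T, i % 2 = 0 ∧ k ≤ i) → (∀ i ∈ T', i % 2 = 0 ∧ k ≤ i) →
    ∑ i ∈ T', a i < ∑ i ∈ T, a i → ∑ i ∈ T', a i + D ≤ ∑ i ∈ T, a i

theorem exists_bound (F : Finset ℕ) : ∃ J, ∀ i ∈ F, i < J :=
  ⟨F.sup id + 1, fun i hi => by
    have := Finset.le_sup (f := id) hi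
    simp only [id] at this
    omega⟩

theorem Hyp.caseA {a : ℕ → ℕ} (H : Hyp a) (D : ℕ) (h : ∀ k, ¬ Sep a D k) : False := by
  classical
  obtain ⟨⟨d, r⟩, hdr, hP⟩ := pigeon (Ico 1 D ×ˢ range D)
    (fun p k => ∃ T T' : Finset ℕ, (∀ i ∈ T, i % 2 = 0 ∧ k ≤ i) ∧ (∀ i ∈ T', i % 2 = 0 ∧ k ≤ i) ∧
      ∑ i ∈ T, a i = ∑ i ∈ T', a i + p.1 ∧ (∑ i ∈ T', a i) % p.1 = p.2)
    (by
      rintro p k k' hk ⟨T, T', h1, h2, h3, h4⟩
      exact ⟨T, T', fun i hi => ⟨(h1 i hi).1, hk.trans (h1 i hi).2⟩,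
        fun i hi => ⟨(h2 i hi).1, hk.trans (h2 i hi).2⟩, h3, h4⟩)
    (by
      intro k
      have h1 := h k
      unfold Sep at h1
      push Not at h1
      obtain ⟨T, T', h2, h3, h4, h5⟩ := h1
      refine ⟨(∑ i ∈ T, a i - ∑ i ∈ T', a i,
        (∑ i ∈ T', a i) % (∑ i ∈ T, a i - ∑ i ∈ T', a i)), ?_, T, T', h2, h3, ?_, rfl⟩
      · have h6 := Nat.mod_lt (∑ i ∈ T', a i) (show 0 < ∑ i ∈ T, a i - ∑ i ∈ T', a i by omega)
        rw [Finset.mem_product, Finset.mem_Ico, Finset.mem_range]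
        simp only
        omega
      · simp only
        omega)
  rw [Finset.mem_product, Finset.mem_Ico, Finset.mem_range] at hdr
  simp only at hdr hP
  obtain ⟨⟨hd1, hdD⟩, hrD⟩ := hdr
  have build : ∀ t : ℕ, ∃ (F : Finset ℕ) (s0 : ℕ), s0 % d = (t * r) % d ∧ (∀ i ∈ F, i % 2 = 0) ∧
      ∀ j ≤ t, ∃ F' ⊆ F, ∑ i ∈ F', a i = s0 + j * d := by
    intro t
    induction t with
    | zero =>
      refine ⟨∅, 0, by simp, by simp, ?_⟩
      intro j hj
      exact ⟨∅, by simp, by simp; omega⟩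
    | succ t ih =>
      obtain ⟨F, s0, h1, h2, h3⟩ := ih
      obtain ⟨J, hJ⟩ := exists_bound F
      obtain ⟨T, T', h4, h5, h6, h7⟩ := hP J
      have hdT : ∀ F' ⊆ F, Disjoint F' T := by
        intro F' hF'
        rw [Finset.disjoint_left]
        intro i hi hi'
        have := hJ i (hF' hi)
        have := (h4 i hi').2
        omega
      have hdT' : ∀ F' ⊆ F, Disjoint F' T' := by
        intro F' hF'
        rw [Finset.disjoint_left]
        intro i hi hi'
        have := hJ i (hF' hi)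
        have := (h5 i hi').2
        omega
      refine ⟨F ∪ T ∪ T', s0 + ∑ i ∈ T', a i, ?_, ?_, ?_⟩
      · rw [Nat.add_mod, h1, h7]
        have h8 : r % d = r := by rw [← h7, Nat.mod_mod]
        have h9 : (t + 1) * r = t * r + r := by ring
        rw [h9, Nat.add_mod (t * r) r d, h8]
      · intro i hi
        rw [Finset.mem_union, Finset.mem_union] at hi
        rcases hi with (hi | hi) | hi
        · exact h2 i hi
        · exact (h4 i hi).1
        · exact (h5 i hi).1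
      · intro j hj
        rcases Nat.lt_or_ge j (t + 1) with hj1 | hj1
        · obtain ⟨F', hF', hs⟩ := h3 j (by omega)
          refine ⟨F' ∪ T', ?_, ?_⟩
          · intro i hi
            rw [Finset.mem_union] at hi
            rw [Finset.mem_union, Finset.mem_union]
            rcases hi with hi | hi
            · exact Or.inl (Or.inl (hF' hi))
            · exact Or.inr hi
          · rw [Finset.sum_union (hdT' F' hF'), hs]; ring
        · obtain ⟨F', hF', hs⟩ := h3 t le_rfl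
          refine ⟨F' ∪ T, ?_, ?_⟩
          · intro i hi
            rw [Finset.mem_union] at hi
            rw [Finset.mem_union, Finset.mem_union]
            rcases hi with hi | hi
            · exact Or.inl (Or.inl (hF' hi))
            · exact Or.inl (Or.inr hi)
          · have hj2 : j = t + 1 := by omega
            rw [Finset.sum_union (hdT F' hF'), hs, h6, hj2]; ring
  apply H.final d hd1
  intro T
  obtain ⟨F, s0, h1, h2, h3⟩ := build (d * T)
  refine ⟨F, s0, ?_, h2, ?_⟩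
  · rw [Nat.dvd_iff_mod_eq_zero, h1, mul_assoc]
    exact Nat.mul_mod_right _ _
  · intro t ht
    exact h3 t (ht.trans (Nat.le_mul_of_pos_left _ hd1))

/-- Sums of terms with even index in `[k, n)`. -/
def SI (a : ℕ → ℕ) (k n : ℕ) : Set ℕ :=
  {x | ∃ F : Finset ℕ, (∀ i ∈ F, i % 2 = 0 ∧ k ≤ i ∧ i < n) ∧ ∑ i ∈ F, a i = x}

theorem SI_add {a : ℕ → ℕ} {k l m x y : ℕ} (hkl : k ≤ l) (hlm : l ≤ m) (hx : x ∈ SI a k l)
    (hy : y ∈ SI a l m) : x + y ∈ SI a k m := by
  classical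
  obtain ⟨F, hF, rfl⟩ := hx
  obtain ⟨F', hF', rfl⟩ := hy
  refine ⟨F ∪ F', ?_, ?_⟩
  · intro i hi
    rw [Finset.mem_union] at hi
    rcases hi with hi | hi
    · have := hF i hi; omega
    · have := hF' i hi; omega
  · rw [Finset.sum_union]
    rw [Finset.disjoint_left]
    intro i hi hi'
    have := hF i hi
    have := hF' i hi'
    omega

theorem mem_SI_single {a : ℕ → ℕ} {k n i : ℕ} (h : i % 2 = 0) (h1 : k ≤ i) (h2 : i < n) :
    a i ∈ SI a k n := ⟨{i}, by simp [h, h1, h2], by simp⟩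

theorem SI_mono {a : ℕ → ℕ} {k n k' n' x : ℕ} (h1 : k' ≤ k) (h2 : n ≤ n') (hx : x ∈ SI a k n) :
    x ∈ SI a k' n' := by
  obtain ⟨F, hF, rfl⟩ := hx
  exact ⟨F, fun i hi => by have := hF i hi; omega, rfl⟩

/-- The moves `a (4j+2) - a (4j)` for `k ≤ j < n`. -/
def Wm (a : ℕ → ℕ) (k n : ℕ) : Multiset ℕ := (Finset.Ico k n).val.map fun j => a (4 * j + 2) - a (4 * j)

/-- The terms `a (2j)` for `k ≤ j < n`. -/
def Sm (a : ℕ → ℕ) (k n : ℕ) : Multiset ℕ := (Finset.Ico k n).val.map fun j => a (2 * j)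

theorem Ico_val_succ {k n : ℕ} (h : k ≤ n) :
    (Finset.Ico k (n + 1)).val = n ::ₘ (Finset.Ico k n).val := by
  rw [← Finset.insert_Ico_right_eq_Ico_add_one h, Finset.insert_val_of_notMem (by simp)]

theorem mem_SI_of_Wm {a : ℕ → ℕ} (ha : StrictMono a) {k : ℕ} : ∀ (n : ℕ), k ≤ n →
    ∀ x ∈ SS (Wm a k n), ∑ j ∈ Finset.Ico k n, a (4 * j) + x ∈ SI a (4 * k) (4 * n) := by
  intro n hn
  induction n, hn using Nat.le_induction with
  | base =>
    intro x hx
    simp only [Wm, Finset.Ico_self, Finset.empty_val, Multiset.map_zero] at hx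
    obtain ⟨T, hT, rfl⟩ := hx
    rw [nonpos_iff_eq_zero] at hT
    subst hT
    exact ⟨∅, by simp, by simp⟩
  | succ n hn ih =>
    intro x hx
    have h1 : Wm a k (n + 1) = (a (4 * n + 2) - a (4 * n)) ::ₘ Wm a k n := by
      unfold Wm
      rw [Ico_val_succ hn, Multiset.map_cons]
    rw [h1, SS_cons_iff] at hx
    rw [Finset.sum_Ico_succ_top hn]
    have hlt : a (4 * n) < a (4 * n + 2) := ha (by omega)
    rcases hx with hx | ⟨y, hy, rfl⟩
    · have h2 := SI_add (by omega) (by omega) (ih x hx)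
        (mem_SI_single (a := a) (k := 4 * n) (n := 4 * (n + 1)) (i := 4 * n) (by omega) (by omega)
          (by omega))
      have h3 : ∑ j ∈ Finset.Ico k n, a (4 * j) + a (4 * n) + x =
        ∑ j ∈ Finset.Ico k n, a (4 * j) + x + a (4 * n) := by ring
      rwa [h3]
    · have h2 := SI_add (by omega) (by omega) (ih y hy)
        (mem_SI_single (a := a) (k := 4 * n) (n := 4 * (n + 1)) (i := 4 * n + 2) (by omega)
          (by omega) (by omega))
      have h3 : ∑ j ∈ Finset.Ico k n, a (4 * j) + a (4 * n) + (a (4 * n + 2) - a (4 * n) + y) =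
        ∑ j ∈ Finset.Ico k n, a (4 * j) + y + a (4 * n + 2) := by omega
      rwa [h3]

theorem mem_SI_of_Sm {a : ℕ → ℕ} {k : ℕ} : ∀ (n : ℕ), k ≤ n →
    ∀ x ∈ SS (Sm a k n), x ∈ SI a (2 * k) (2 * n) := by
  intro n hn
  induction n, hn using Nat.le_induction with
  | base =>
    intro x hx
    simp only [Sm, Finset.Ico_self, Finset.empty_val, Multiset.map_zero] at hx
    obtain ⟨T, hT, rfl⟩ := hx
    rw [nonpos_iff_eq_zero] at hT
    subst hT
    exact ⟨∅, by simp, by simp⟩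
  | succ n hn ih =>
    intro x hx
    have h1 : Sm a k (n + 1) = a (2 * n) ::ₘ Sm a k n := by
      unfold Sm
      rw [Ico_val_succ hn, Multiset.map_cons]
    rw [h1, SS_cons_iff] at hx
    rcases hx with hx | ⟨y, hy, rfl⟩
    · exact SI_mono (by omega) (by omega) (ih x hx)
    · rw [add_comm (a (2 * n)) y]
      exact SI_add (l := 2 * n) (by omega) (by omega) (ih y hy)
        (mem_SI_single (i := 2 * n) (by omega) (by omega) (by omega))

theorem SS_add_split {A B : Multiset ℕ} : ∀ x ∈ SS (A + B), ∃ y ∈ SS A, ∃ z ∈ SS B, x = y + z := by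
  induction B using Multiset.induction_on with
  | empty =>
    intro x hx
    rw [add_zero] at hx
    exact ⟨x, hx, 0, zero_mem_SS _, by simp⟩
  | cons w B ih =>
    intro x hx
    rw [Multiset.add_cons, SS_cons_iff] at hx
    rcases hx with hx | ⟨u, hu, rfl⟩
    · obtain ⟨y, hy, z, hz, rfl⟩ := ih x hx
      exact ⟨y, hy, z, SS_mono (Multiset.le_cons_self _ _) hz, rfl⟩
    · obtain ⟨y, hy, z, hz, rfl⟩ := ih u hu
      exact ⟨y, hy, w + z, mem_SS_cons hz, by ring⟩

theorem Ico_val_add {k m n : ℕ} (h1 : k ≤ m) (h2 : m ≤ n) :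
    (Finset.Ico m n).val + (Finset.Ico k m).val = (Finset.Ico k n).val := by
  rw [add_comm]
  exact Multiset.Ico_add_Ico_eq_Ico h1 h2

theorem Wm_add {a : ℕ → ℕ} {k m n : ℕ} (h1 : k ≤ m) (h2 : m ≤ n) :
    Wm a m n + Wm a k m = Wm a k n := by
  unfold Wm
  rw [← Multiset.map_add, Ico_val_add h1 h2]

theorem card_filter_map (f : ℕ → ℕ) (k n e : ℕ) :
    (((Finset.Ico k n).val.map f).filter (fun w => ¬ e ∣ w)).card =
      ((Finset.Ico k n).filter (fun j => ¬ e ∣ f j)).card := by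
  rw [Multiset.filter_map, Multiset.card_map]
  rfl

end Pool.Agent.Lib.MP_d49ebf_nt
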