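import Mathlib
import Pool.Agent.Lib.MP_d49ebf_nt.Cases

set_option autoImplicit false

/-!
The separated case.
-/

namespace Pool.Agent.Lib.MP_d49ebf_nt

open Finset

/-- Either `q` divides all later terms, or many early terms are not divisible by `q`. -/
theorem exists_k1 (s : ℕ → ℕ) (K0 Q0 : ℕ) : ∃ k1, K0 ≤ k1 ∧ ∀ q ∈ Icc 1 Q0,
    (∀ j, 2 * k1 ≤ j → q ∣ s j) ∨ q ≤ ((Ico K0 (2 * k1)).filter (fun j => ¬ q ∣ s j)).card := by
  have h1 : ∀ q, ∃ k, (∀ j, 2 * k ≤ j → q ∣ s j) ∨
      q ≤ ((Ico K0 (2 * k)).filter (fun j => ¬ q ∣ s j)).card := by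
    intro q
    by_cases h : ∃ k, ∀ j, 2 * k ≤ j → q ∣ s j
    · obtain ⟨k, hk⟩ := h
      exact ⟨k, Or.inl hk⟩
    · push Not at h
      have h2 : ∀ c : ℕ, ∃ k, c ≤ ((Ico K0 (2 * k)).filter (fun j => ¬ q ∣ s j)).card := by
        intro c
        induction c with
        | zero => exact ⟨0, Nat.zero_le _⟩
        | succ c ih =>
          obtain ⟨k, hk⟩ := ih
          obtain ⟨j, hj, hq⟩ := h (k + K0)
          refine ⟨j + 1, ?_⟩
          have h3 : (Ico K0 (2 * k)).filter (fun j => ¬ q ∣ s j) ⊂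
              (Ico K0 (2 * (j + 1))).filter (fun j => ¬ q ∣ s j) := by
            rw [Finset.ssubset_iff_of_subset]
            · refine ⟨j, ?_, ?_⟩
              · rw [Finset.mem_filter, Finset.mem_Ico]
                exact ⟨by omega, hq⟩
              · rw [Finset.mem_filter, Finset.mem_Ico]
                omega
            · intro i hi
              rw [Finset.mem_filter, Finset.mem_Ico] at hi ⊢
              exact ⟨by omega, hi.2⟩
          have := Finset.card_lt_card h3
          omega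
      obtain ⟨k, hk⟩ := h2 q
      exact ⟨k, Or.inr hk⟩
  choose k hk using h1
  refine ⟨K0 + (Icc 1 Q0).sup k, by omega, ?_⟩
  intro q hq
  have h2 : k q ≤ (Icc 1 Q0).sup k := Finset.le_sup hq
  rcases hk q with h | h
  · exact Or.inl fun j hj => h j (by omega)
  · right
    refine h.trans (Finset.card_le_card ?_)
    intro i hi
    rw [Finset.mem_filter, Finset.mem_Ico] at hi ⊢
    exact ⟨by omega, hi.2⟩

theorem count_moves {w : ℕ → ℕ} {k1 m e : ℕ} (hw : ∀ j, k1 ≤ j → 1 ≤ w j ∧ w j ≤ 10 * j)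
    (he : e ≤ 20 * m) :
    e / 20 - k1 ≤ ((Ico k1 m).filter (fun j => ¬ e ∣ w j)).card := by
  have h1 : Ico k1 (e / 20) ⊆ (Ico k1 m).filter (fun j => ¬ e ∣ w j) := by
    intro j hj
    rw [Finset.mem_Ico] at hj
    rw [Finset.mem_filter, Finset.mem_Ico]
    refine ⟨by omega, fun h => ?_⟩
    have h2 := hw j hj.1
    have h3 := Nat.le_of_dvd (by omega) h
    omega
  have := Finset.card_le_card h1
  rwa [Nat.card_Ico] at this

theorem count_terms {s : ℕ → ℕ} {K0 M e : ℕ} (hs : ∀ j, K0 ≤ j → s j < s (j + 1) ∧ s (j + 1) ≤ s j + 5 * j)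
    (he : e / 20 ≤ M) :
    (e / 20 - K0) / 2 ≤ ((Ico K0 M).filter (fun j => ¬ e ∣ s j)).card := by
  classical
  have h1 : (range ((e / 20 - K0) / 2)).card ≤ ((Ico K0 M).filter (fun j => ¬ e ∣ s j)).card := by
    apply Finset.card_le_card_of_injOn
      (fun i => if e ∣ s (K0 + 2 * i) then K0 + 2 * i + 1 else K0 + 2 * i)
    · intro i hi
      rw [Finset.coe_range, Set.mem_Iio] at hi
      rw [Finset.mem_coe, Finset.mem_filter, Finset.mem_Ico]
      by_cases h : e ∣ s (K0 + 2 * i)
      · simp only [h, if_true]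
        refine ⟨by omega, fun h' => ?_⟩
        obtain ⟨h2, h3⟩ := hs (K0 + 2 * i) (by omega)
        have h4 := Nat.dvd_sub h' h
        have h5 := Nat.le_of_dvd (by omega) h4
        omega
      · simp only [h, if_false]
        exact ⟨by omega, not_false⟩
    · intro i hi j hj hij
      simp only at hij
      split_ifs at hij <;> omega
  rwa [Finset.card_range] at h1

theorem Hyp.caseB {a : ℕ → ℕ} (H : Hyp a) (k0 : ℕ) (hsep : Sep a 100000 k0) : False := by
  classical
  obtain ⟨n0, hn0⟩ := H.gap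
  obtain ⟨K0, hK0⟩ : ∃ K0, K0 = k0 + n0 + 1 := ⟨_, rfl⟩
  -- the terms
  have hs : ∀ j, K0 ≤ j → a (2 * j) < a (2 * (j + 1)) ∧ a (2 * (j + 1)) ≤ a (2 * j) + 5 * j := by
    intro j hj
    have h1 := hn0 (2 * j) (by omega)
    have h2 := hn0 (2 * j + 1) (by omega)
    have h3 : a (2 * (j + 1)) = a (2 * j + 1 + 1) := rfl
    exact ⟨H.mono (by omega), by omega⟩
  have hw : ∀ j, K0 ≤ j → 1 ≤ a (4 * j + 2) - a (4 * j) ∧ a (4 * j + 2) - a (4 * j) ≤ 10 * j := by
    intro j hj
    have h1 := hn0 (4 * j) (by omega)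
    have h2 := hn0 (4 * j + 1) (by omega)
    have h3 : a (4 * j) < a (4 * j + 2) := H.mono (by omega)
    have h4 : a (4 * j + 2) = a (4 * j + 1 + 1) := rfl
    omega
  obtain ⟨k1, hk1, hR⟩ := exists_k1 (fun j => a (2 * j)) K0 (40 * K0)
  -- separation
  have hsepM : ∀ n, k1 ≤ n → DSep 100000 (SS (Wm a k1 n + Sm a K0 (2 * k1))) := by
    intro n hn
    set B0 := ∑ j ∈ Finset.Ico k1 n, a (4 * j) with hB0
    have key : ∀ x ∈ SS (Wm a k1 n + Sm a K0 (2 * k1)), B0 + x ∈ SI a (2 * K0) (4 * n) := by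
      intro x hx
      obtain ⟨y, hy, z, hz, rfl⟩ := SS_add_split x hx
      have h1 := mem_SI_of_Wm H.mono n hn y hy
      have h2 := mem_SI_of_Sm (2 * k1) (by omega) z hz
      have h3 := SI_add (l := 4 * k1) (by omega) (by omega)
        (SI_mono (k' := 2 * K0) (n' := 4 * k1) (by omega) (by omega) h2) h1
      have h4 : B0 + (y + z) = z + (B0 + y) := by ring
      rwa [h4]
    intro x hx y hy hxy
    obtain ⟨F, hF, hFx⟩ := key x hx
    obtain ⟨F', hF', hFy⟩ := key y hy
    have := hsep F' F (fun i hi => by have := hF' i hi; omega)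
      (fun i hi => by have := hF i hi; omega) (by omega)
    omega
  have main : ∀ T, ∃ q ∈ Icc 1 (40 * K0), Good a q T := by
    intro T
    obtain ⟨L3, hL3⟩ : ∃ L3, L3 = a (4 * k1) := ⟨_, rfl⟩
    obtain ⟨m, hm⟩ : ∃ m, m = 4 * (T + 2 * L3 + 4 + 40 * k1) + 1000 := ⟨_, rfl⟩
    have hM12 : Wm a m (2 * m) + Wm a k1 m = Wm a k1 (2 * m) := Wm_add (by omega) (by omega)
    have hsep3 := hsepM (2 * m) (by omega)
    have hsep2 : DSep 100000 (SS (Wm a m (2 * m) + Wm a k1 m)) := by
      rw [hM12]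
      exact hsep3.mono (SS_mono (Multiset.le_add_right _ _))
    have hsep1 : DSep 100000 (SS (Wm a m (2 * m))) :=
      hsep2.mono (SS_mono (Multiset.le_add_right _ _))
    -- step 1
    obtain ⟨q1, α1, n1, hq1, hq1m, hAP1, hn1⟩ := main_lemma 100000 (by norm_num) (20 * m)
      (Wm a m (2 * m)) (by omega)
      (by
        intro x hx
        unfold Wm at hx
        rw [Multiset.mem_map] at hx
        obtain ⟨j, hj, rfl⟩ := hx
        have hj' : j ∈ Finset.Ico m (2 * m) := hj
        rw [Finset.mem_Ico] at hj'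
        have := hw j (by omega)
        omega)
      hsep1
      (by
        have : (Wm a m (2 * m)).card = m := by
          unfold Wm
          rw [Multiset.card_map, Finset.card_val, Nat.card_Ico]
          omega
        rw [this]; omega)
    have hcard1 : (Wm a m (2 * m)).card = m := by
      unfold Wm
      rw [Multiset.card_map, Finset.card_val, Nat.card_Ico]
      omega
    rw [hcard1] at hn1
    -- step 2
    obtain ⟨X, hX⟩ : ∃ X, X = q1 * m := ⟨_, rfl⟩
    obtain ⟨Z, hZ⟩ : ∃ Z, Z = q1 * n1 := ⟨_, rfl⟩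
    have hXZ : X ≤ 2 * Z := by
      rw [hX, hZ]
      calc q1 * m ≤ q1 * (2 * n1) := Nat.mul_le_mul_left _ hn1
        _ = 2 * (q1 * n1) := by ring
    have hqX : 1000 * q1 ≤ X := by
      rw [hX, mul_comm]
      exact Nat.mul_le_mul_left _ (by omega)
    have hD1 : 100000 ≤ q1 := by
      have h0 := hAP1 0 (by omega)
      have h1 := hAP1 1 (by omega)
      have := hsep1 _ h0 _ h1 (by omega)
      omega
    obtain ⟨u, hu⟩ : ∃ u, u = q1 / 100000 := ⟨_, rfl⟩
    have hu1 : 1 ≤ u := by omega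
    have hu2 : 100000 * u ≤ q1 := by omega
    obtain ⟨Y, hY⟩ : ∃ Y, Y = u * (10 * m) := ⟨_, rfl⟩
    have hY1 : 10000 * Y ≤ X := by
      rw [hX, hY]
      calc 10000 * (u * (10 * m)) = (100000 * u) * m := by ring
        _ ≤ q1 * m := Nat.mul_le_mul_right _ hu2
    have hY2 : 10 * m ≤ Y := by rw [hY]; exact Nat.le_mul_of_pos_left _ hu1
    have habs1 : q1 / 100000 * (10 * m) + 10 * m + 3 * q1 ≤ q1 * n1 := by
      rw [← hu, ← hY, ← hZ]
      omega
    obtain ⟨e1, α2, n2, he1, he1q, hα2, hα2', hAP2, hf2, hn2⟩ := absorb (L := 10 * m) (by norm_num)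
      hq1 hsep2
      (by
        intro x hx
        unfold Wm at hx
        rw [Multiset.mem_map] at hx
        obtain ⟨j, hj, rfl⟩ := hx
        have hj' : j ∈ Finset.Ico k1 m := hj
        rw [Finset.mem_Ico] at hj'
        have := hw j (by omega)
        omega) hAP1 habs1
    rw [← hu, ← hY, ← hZ] at hn2
    have he1q' : e1 ≤ q1 := Nat.le_of_dvd (by omega) he1q
    have hn2m : m ≤ 4 * n2 := by
      have h1 : e1 * u ≤ q1 * u := Nat.mul_le_mul_right _ he1q'
      have h2 : 5000 * u ≤ m := by omega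
      have h3 : 5000 * (q1 * u) ≤ X := by
        rw [hX]
        calc 5000 * (q1 * u) = q1 * (5000 * u) := by ring
          _ ≤ q1 * m := Nat.mul_le_mul_left _ h2
      have h4 : X ≤ 4 * (e1 * n2) := by omega
      have h5 : e1 * m ≤ e1 * (4 * n2) := by
        calc e1 * m ≤ q1 * m := Nat.mul_le_mul_right _ he1q'
          _ = X := hX.symm
          _ ≤ 4 * (e1 * n2) := h4
          _ = e1 * (4 * n2) := by ring
      exact Nat.le_of_mul_le_mul_left h5 (by omega)
    have he1k : e1 ≤ 40 * k1 := by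
      by_contra hcon
      push Not at hcon
      have h1 := count_moves (w := fun j => a (4 * j + 2) - a (4 * j)) (k1 := k1) (m := m) (e := e1)
        (fun j hj => hw j (by omega)) (by omega)
      have h2 := card_filter_map (fun j => a (4 * j + 2) - a (4 * j)) k1 m e1
      rw [← h2] at h1
      change e1 / 20 - k1 ≤ ((Wm a k1 m).filter (fun w => ¬ e1 ∣ w)).card at h1
      omega
    -- step 3
    rw [hM12] at hAP2
    have habs2 : e1 / 100000 * L3 + L3 + 3 * e1 ≤ e1 * n2 := by
      have h1 : e1 / 100000 * L3 ≤ e1 * L3 := Nat.mul_le_mul_right _ (Nat.div_le_self _ _)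
      have h2 : L3 ≤ e1 * L3 := Nat.le_mul_of_pos_left _ he1
      have h3 : e1 * (2 * L3 + 3) ≤ e1 * n2 := Nat.mul_le_mul_left _ (by omega)
      have h4 : e1 * (2 * L3 + 3) = 2 * (e1 * L3) + 3 * e1 := by ring
      omega
    obtain ⟨e2, α3, n3, he2, he2e, hα3, hα3', hAP3, hf3, hn3⟩ := absorb (L := L3) (by norm_num)
      he1 hsep3
      (by
        intro x hx
        unfold Sm at hx
        rw [Multiset.mem_map] at hx
        obtain ⟨j, hj, rfl⟩ := hx
        have hj' : j ∈ Finset.Ico K0 (2 * k1) := hj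
        rw [Finset.mem_Ico] at hj'
        refine ⟨H.pos _, ?_⟩
        rw [hL3]
        exact H.mono.monotone (by omega)) hAP2 habs2
    have he2e' : e2 ≤ e1 := Nat.le_of_dvd (by omega) he2e
    have hn3T : T ≤ n3 := by
      have h1 : e1 / 100000 * L3 ≤ e1 * L3 := Nat.mul_le_mul_right _ (Nat.div_le_self _ _)
      have h2 : e2 * (e1 / 100000) ≤ e1 * e1 := Nat.mul_le_mul he2e' (Nat.div_le_self _ _)
      have h3 : e2 * n3 ≤ e1 * n3 := Nat.mul_le_mul_right _ he2e'
      have h4 : e1 * n2 ≤ e1 * (n3 + L3 + 1 + e1) := by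
        have : e1 * (n3 + L3 + 1 + e1) = e1 * n3 + e1 * L3 + e1 + e1 * e1 := by ring
        omega
      have h5 := Nat.le_of_mul_le_mul_left h4 (by omega)
      omega
    have hfS : ((Sm a K0 (2 * k1)).filter (fun w => ¬ e2 ∣ w)).card =
        ((Ico K0 (2 * k1)).filter (fun j => ¬ e2 ∣ a (2 * j))).card :=
      card_filter_map (fun j => a (2 * j)) K0 (2 * k1) e2
    rw [hfS] at hf3
    have he2K : e2 ≤ 40 * K0 := by
      by_contra hcon
      push Not at hcon
      have h1 := count_terms (s := fun j => a (2 * j)) (K0 := K0) (M := 2 * k1) (e := e2) hs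
        (by omega)
      omega
    have hdvd : ∀ j, 2 * k1 ≤ j → e2 ∣ a (2 * j) := by
      rcases hR e2 (by rw [Finset.mem_Icc]; omega) with h | h
      · exact h
      · omega
    refine ⟨e2, by rw [Finset.mem_Icc]; omega, ?_⟩
    apply Good.anti hn3T
    set B0 := ∑ j ∈ Finset.Ico k1 (2 * m), a (4 * j) with hB0
    have hdB0 : e2 ∣ B0 := by
      apply Finset.dvd_sum
      intro j hj
      rw [Finset.mem_Ico] at hj
      have := hdvd (2 * j) (by omega)
      have h2 : 2 * (2 * j) = 4 * j := by ring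
      rwa [h2] at this
    have hdα1 : e2 ∣ α1 := by
      have h0 := hAP1 0 (by omega)
      rw [zero_mul, add_zero] at h0
      obtain ⟨T', hT', rfl⟩ := h0
      apply Multiset.dvd_sum
      intro x hx
      have hx' := Multiset.mem_of_le hT' hx
      unfold Wm at hx'
      rw [Multiset.mem_map] at hx'
      obtain ⟨j, hj, rfl⟩ := hx'
      have hj' : j ∈ Finset.Ico m (2 * m) := hj
      rw [Finset.mem_Ico] at hj'
      have h1 := hdvd (2 * j) (by omega)
      have h2 := hdvd (2 * j + 1) (by omega)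
      have h3 : 2 * (2 * j) = 4 * j := by ring
      have h4 : 2 * (2 * j + 1) = 4 * j + 2 := by ring
      rw [h3] at h1
      rw [h4] at h2
      exact Nat.dvd_sub h2 h1
    have hdα3 : e2 ∣ α3 := by
      have h1 : e2 ∣ α2 - α1 := he2e.trans hα2'
      have h2 : α3 = (α3 - α2) + ((α2 - α1) + α1) := by omega
      rw [h2]
      exact dvd_add hα3' (dvd_add h1 hdα1)
    refine ⟨(Finset.range (8 * m)).filter (fun i => i % 2 = 0), B0 + α3, dvd_add hdB0 hdα3, ?_, ?_⟩
    · intro i hi
      exact (Finset.mem_filter.1 hi).2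
    · intro t ht
      obtain ⟨y, hy, z, hz, hyz⟩ := SS_add_split _ (hAP3 t ht)
      have h1 := mem_SI_of_Wm H.mono (2 * m) (by omega) y hy
      have h2 := mem_SI_of_Sm (2 * k1) (by omega) z hz
      have h3 := SI_add (l := 4 * k1) (by omega) (by omega)
        (SI_mono (k' := 2 * K0) (n' := 4 * k1) (by omega) (by omega) h2) h1
      obtain ⟨F', hF', hs'⟩ := h3
      refine ⟨F', ?_, ?_⟩
      · intro i hi
        have := hF' i hi
        rw [Finset.mem_filter, Finset.mem_range]
        omega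
      · rw [hs']
        omega
  obtain ⟨q, hq, hG⟩ := pigeon (Icc 1 (40 * K0)) (fun q T => Good a q T)
    (fun _ _ _ h hg => Good.anti h hg) main
  rw [Finset.mem_Icc] at hq
  exact H.final q hq.1 hG

theorem Hyp.false {a : ℕ → ℕ} (H : Hyp a) : False := by
  by_cases h : ∃ k, Sep a 100000 k
  · obtain ⟨k, hk⟩ := h
    exact H.caseB k hk
  · push Not at h
    exact H.caseA 100000 h

end Pool.Agent.Lib.MP_d49ebf_nt
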