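import Mathlib
import Pool.Agent.Lib.MP_d49ebf_nt.CaseB

set_option autoImplicit false

/-!
The stronger form: gaps bounded by an arbitrary multiple of the index are impossible.
-/

namespace Pool.Agent.Lib.MP_d49ebf_nt

open Finset

/-- The enumeration of a subset-sum-free set whose gaps are eventually at most `C` times
the index. -/
structure HypC (C : ℕ) (a : ℕ → ℕ) : Prop where
  mono : StrictMono a
  sf : ∀ n : ℕ, ∀ S : Finset ℕ, (∀ i ∈ S, i < n) → ∑ i ∈ S, a i ≠ a n
  gap : ∃ n0, ∀ n, n0 ≤ n → a (n + 1) ≤ a n + C * n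

theorem HypC.pos {C : ℕ} {a : ℕ → ℕ} (H : HypC C a) (n : ℕ) : 0 < a n := by
  rcases Nat.eq_zero_or_pos (a n) with h | h
  · exact (H.sf n ∅ (by simp) (by simp [h])).elim
  · exact h

theorem density_of {a : ℕ → ℕ} (mono : StrictMono a)
    (sf : ∀ n : ℕ, ∀ S : Finset ℕ, (∀ i ∈ S, i < n) → ∑ i ∈ S, a i ≠ a n) (C : ℕ) :
    ∃ N, ∀ n, N ≤ n → C * n ≤ a n := by
  set t : ℕ → ℕ := fun j => ∑ i ∈ range j, a i with ht
  refine ⟨(C + 1) * C + t C + 1 + C, ?_⟩
  intro n hn
  have htm : ∀ j ≤ C, t j ≤ t C := by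
    intro j hj
    exact Finset.sum_le_sum_of_subset (by intro x; simp only [Finset.mem_range]; omega)
  have key : ∀ m ∈ Ico C n, ∀ m' ∈ Ico C n, ∀ j j' : ℕ, j < j' → j' ≤ C →
      a m + t j = a m' + t j' → False := by
    intro m hm m' hm' j j' hjj hj' heq
    rw [Finset.mem_Ico] at hm hm'
    have h1 : t j' = t j + ∑ i ∈ Ico j j', a i := by
      rw [ht]; simp only
      rw [Finset.sum_range_add_sum_Ico _ hjj.le]
    have h2 : a m = a m' + ∑ i ∈ Ico j j', a i := by omega
    have h3 : m' ∉ Ico j j' := by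
      rw [Finset.mem_Ico]; omega
    rcases Nat.lt_or_ge m' m with h | h
    · apply sf m (insert m' (Ico j j'))
      · intro i hi
        rw [Finset.mem_insert, Finset.mem_Ico] at hi
        omega
      · rw [Finset.sum_insert h3, h2]
    · have h4 : a m ≤ a m' := mono.monotone h
      have h5 : ∑ i ∈ Ico j j', a i = 0 := by omega
      rw [Finset.sum_eq_zero_iff] at h5
      have h7 := h5 j (by rw [Finset.mem_Ico]; omega)
      exact sf j ∅ (by simp) (by simp [h7])
  have hcard : (Ico C n ×ˢ range (C + 1)).card ≤ (range (a n + t C)).card := by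
    apply Finset.card_le_card_of_injOn (fun p => a p.1 + t p.2)
    · rintro ⟨m, j⟩ hp
      simp only [Finset.coe_product, Set.mem_prod, Finset.mem_coe, Finset.mem_Ico,
        Finset.mem_range] at hp
      simp only [Finset.coe_range, Set.mem_Iio]
      have h1 : a m < a n := mono hp.1.2
      have h2 := htm j (by omega)
      omega
    · rintro ⟨m, j⟩ hp ⟨m', j'⟩ hp' heq
      simp only [Finset.coe_product, Set.mem_prod, Finset.mem_coe, Finset.mem_range] at hp hp'
      simp only at heq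
      rcases lt_trichotomy j j' with h | h | h
      · exact (key m hp.1 m' hp'.1 j j' h (by omega) heq).elim
      · subst h
        have : a m = a m' := by omega
        rw [mono.injective this]
      · exact (key m' hp'.1 m hp.1 j' j h (by omega) heq.symm).elim
  rw [Finset.card_product, Finset.card_range, Nat.card_Ico, Finset.card_range] at hcard
  have h1 : (n - C) * (C + 1) = n * (C + 1) - C * (C + 1) := Nat.sub_mul _ _ _
  have h2 : n * (C + 1) = C * n + n := by ring
  have h3 : (C + 1) * C = C * (C + 1) := by ring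
  omega

theorem HypC.density {C : ℕ} {a : ℕ → ℕ} (H : HypC C a) (E : ℕ) :
    ∃ N, ∀ n, N ≤ n → E * n ≤ a n := density_of H.mono H.sf E

theorem HypC.le_add {C : ℕ} {a : ℕ → ℕ} (H : HypC C a) (i k : ℕ) : a i + k ≤ a (i + k) := by
  induction k with
  | zero => simp
  | succ k ih =>
    have : a (i + k) < a (i + (k + 1)) := H.mono (by omega)
    omega

/-- Sum of gaps. -/
theorem gapC_sum {C : ℕ} {a : ℕ → ℕ} {n0 : ℕ} (h : ∀ n, n0 ≤ n → a (n + 1) ≤ a n + C * n)
    (i k : ℕ) (hi : n0 ≤ i) : a (i + k) ≤ a i + k * (C * (i + k)) := by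
  induction k with
  | zero => simp
  | succ k ih =>
    have h1 := h (i + k) (by omega)
    have h5 : C * (i + k) ≤ C * (i + (k + 1)) := Nat.mul_le_mul_left _ (by omega)
    have h2 : k * (C * (i + k)) ≤ k * (C * (i + (k + 1))) := Nat.mul_le_mul_left _ h5
    have h3 : (k + 1) * (C * (i + (k + 1))) =
        k * (C * (i + (k + 1))) + C * (i + (k + 1)) := by ring
    have h4 : a (i + (k + 1)) = a (i + k + 1) := rfl
    omega

/-- For large `x` the interval `(x/(q+1), x/q]` contains many terms with odd index. -/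
theorem HypC.many_odd {C : ℕ} {a : ℕ → ℕ} (H : HypC C a) (q : ℕ) (hq : 1 ≤ q) :
    ∃ X0, ∀ x, X0 ≤ x → ∃ S : Finset ℕ, 2 * q - 1 ≤ S.card ∧
      ∀ i ∈ S, i % 2 = 1 ∧ q * a i ≤ x ∧ x < (q + 1) * a i := by
  obtain ⟨n0, hn0⟩ := H.gap
  obtain ⟨N1, hN1⟩ := H.density (16 * q ^ 2 * C + 1)
  set I0 := n0 + N1 + 8 * q with hI0
  refine ⟨q * a (2 * I0 + 1), ?_⟩
  intro x hx
  have hex : ∃ i, x < q * a (2 * i + 1) := by
    refine ⟨x, ?_⟩
    have h1 := H.le_add 0 (2 * x + 1)
    rw [zero_add] at h1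
    have h2 : 1 * a (2 * x + 1) ≤ q * a (2 * x + 1) := Nat.mul_le_mul_right _ hq
    omega
  classical
  obtain ⟨i, hi, hmin⟩ : ∃ i, x < q * a (2 * i + 1) ∧ ∀ j < i, q * a (2 * j + 1) ≤ x :=
    ⟨Nat.find hex, Nat.find_spec hex, fun j hj => not_lt.1 (Nat.find_min hex hj)⟩
  have hiI : I0 < i := by
    by_contra hcon
    push Not at hcon
    have h1 : a (2 * i + 1) ≤ a (2 * I0 + 1) := H.mono.monotone (by omega)
    have h2 : q * a (2 * i + 1) ≤ q * a (2 * I0 + 1) := Nat.mul_le_mul_left _ h1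
    omega
  -- the smallest of the chosen terms is large
  obtain ⟨r, hr⟩ : ∃ r, i = r + 2 * q := ⟨i - 2 * q, by omega⟩
  have hA : x < (q + 1) * a (2 * r + 1) := by
    have h1 := gapC_sum hn0 (2 * r + 1) (4 * q) (by omega)
    have h2 : 2 * r + 1 + 4 * q = 2 * i + 1 := by omega
    rw [h2] at h1
    have h3 := hN1 (2 * r + 1) (by omega)
    have h4 : 4 * q ^ 2 * C * (2 * i + 1) ≤ 16 * q ^ 2 * C * (2 * r + 1) := by
      have : 2 * i + 1 ≤ 4 * (2 * r + 1) := by omega
      calc 4 * q ^ 2 * C * (2 * i + 1) ≤ 4 * q ^ 2 * C * (4 * (2 * r + 1)) :=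
            Nat.mul_le_mul_left _ this
        _ = 16 * q ^ 2 * C * (2 * r + 1) := by ring
    have h5 : q * a (2 * i + 1) ≤ q * (a (2 * r + 1) + 4 * q * (C * (2 * i + 1))) :=
      Nat.mul_le_mul_left _ h1
    have h6 : q * (a (2 * r + 1) + 4 * q * (C * (2 * i + 1))) =
        q * a (2 * r + 1) + 4 * q ^ 2 * C * (2 * i + 1) := by ring
    have h7 : (q + 1) * a (2 * r + 1) = q * a (2 * r + 1) + a (2 * r + 1) := by ring
    have h8 : (16 * q ^ 2 * C + 1) * (2 * r + 1) = 16 * q ^ 2 * C * (2 * r + 1) + (2 * r + 1) := by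
      ring
    omega
  refine ⟨(Ico r i).image (fun j => 2 * j + 1), ?_, ?_⟩
  · rw [Finset.card_image_of_injective _ (fun x y h => by
      have h' : 2 * x + 1 = 2 * y + 1 := h
      omega), Nat.card_Ico]
    omega
  · intro j hj
    rw [Finset.mem_image] at hj
    obtain ⟨k, hk, rfl⟩ := hj
    rw [Finset.mem_Ico] at hk
    refine ⟨by omega, hmin k hk.2, lt_of_lt_of_le hA ?_⟩
    exact Nat.mul_le_mul_left _ (H.mono.monotone (by omega))

/-- Greedy approximation of a multiple of `q` by a sum of terms with odd index. -/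
theorem HypC.greedy {C : ℕ} {a : ℕ → ℕ} (H : HypC C a) (q : ℕ) (hq : 1 ≤ q) :
    ∃ G, ∀ x, q ∣ x → ∃ B : Finset ℕ, (∀ i ∈ B, i % 2 = 1 ∧ q * a i ≤ x) ∧
      q ∣ ∑ i ∈ B, a i ∧ ∑ i ∈ B, a i ≤ x ∧ x < ∑ i ∈ B, a i + G := by
  obtain ⟨X0, hX0⟩ := H.many_odd q hq
  refine ⟨X0 + 1, ?_⟩
  intro x
  induction x using Nat.strong_induction_on with
  | _ x ih =>
  intro hqx
  rcases Nat.lt_or_ge x X0 with hx | hx
  · exact ⟨∅, by simp, by simp, by simp, by simp; omega⟩
  · obtain ⟨S, hS, hS2⟩ := hX0 x hx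
    obtain ⟨t, htS, htc, htq⟩ := Int.erdos_ginzburg_ziv (s := S) (n := q) (fun i => (a i : ℤ)) hS
    have htq' : q ∣ ∑ i ∈ t, a i := by
      have : ((q : ℕ) : ℤ) ∣ ((∑ i ∈ t, a i : ℕ) : ℤ) := by push_cast; exact htq
      exact Int.natCast_dvd_natCast.1 this
    obtain ⟨i0, hi0⟩ : t.Nonempty := Finset.card_pos.1 (by omega)
    have hsum : ∑ i ∈ t, a i ≤ x := by
      have h1 : q * ∑ i ∈ t, a i ≤ q * x := by
        rw [Finset.mul_sum]
        have := Finset.sum_le_card_nsmul t (fun i => q * a i) x (fun i hi => (hS2 i (htS hi)).2.1)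
        rw [htc] at this
        simpa using this
      exact Nat.le_of_mul_le_mul_left h1 (by omega)
    have hge : ∀ i ∈ t, a i ≤ ∑ i ∈ t, a i := fun i hi =>
      Finset.single_le_sum (f := fun i => a i) (fun _ _ => Nat.zero_le _) hi
    have hpos : 0 < ∑ i ∈ t, a i := by
      have h1 := hge i0 hi0
      have h2 := (hS2 i0 (htS hi0)).2.2
      rcases Nat.eq_zero_or_pos (a i0) with h | h
      · rw [h] at h2; omega
      · omega
    obtain ⟨B, hB1, hB2, hB3, hB4⟩ := ih (x - ∑ i ∈ t, a i) (by omega) (Nat.dvd_sub hqx htq')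
    have hdisj : Disjoint t B := by
      rw [Finset.disjoint_left]
      intro i hi hiB
      have h1 := hge i hi
      have h2 := (hS2 i (htS hi)).2.2
      have h3 := (hB1 i hiB).2
      have h4 : (q + 1) * a i = q * a i + a i := by ring
      omega
    refine ⟨t ∪ B, ?_, ?_, ?_, ?_⟩
    · intro i hi
      rw [Finset.mem_union] at hi
      rcases hi with hi | hi
      · exact ⟨(hS2 i (htS hi)).1, (hS2 i (htS hi)).2.1⟩
      · exact ⟨(hB1 i hi).1, (hB1 i hi).2.trans (Nat.sub_le _ _)⟩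
    · rw [Finset.sum_union hdisj]
      exact dvd_add htq' hB2
    · rw [Finset.sum_union hdisj]
      omega
    · rw [Finset.sum_union hdisj]
      omega

theorem HypC.final {C : ℕ} {a : ℕ → ℕ} (H : HypC C a) (q : ℕ) (hq : 1 ≤ q)
    (h : ∀ T : ℕ, ∃ (F : Finset ℕ) (s0 : ℕ), q ∣ s0 ∧ (∀ i ∈ F, i % 2 = 0) ∧
      ∀ t ≤ T, ∃ F' ⊆ F, ∑ i ∈ F', a i = s0 + t * q) : False := by
  obtain ⟨G, hG⟩ := H.greedy q hq
  obtain ⟨F, s0, hqs, hF, hT⟩ := h G
  obtain ⟨J, hJ⟩ : ∃ J, ∀ i ∈ F, i < J := ⟨F.sup id + 1, fun i hi => by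
    have := Finset.le_sup (f := id) hi
    simp only [id] at this
    omega⟩
  set idx : ℕ → ℕ := fun t => 2 * (J + t * (s0 + G + 1)) with hidx
  have hNe : NeZero q := ⟨by omega⟩
  obtain ⟨t, ht, t', ht', hne, hmod⟩ := Finset.exists_ne_map_eq_of_card_lt_of_maps_to
    (s := range (q + 1)) (t := (Finset.univ : Finset (ZMod q)))
    (by rw [Finset.card_range, Finset.card_univ, ZMod.card]; omega)
    (f := fun t => ((a (idx t) : ℕ) : ZMod q)) (fun _ _ => by simp)
  wlog hlt : t < t' generalizing t t'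
  · exact this t' ht' t ht hne.symm hmod.symm (by omega)
  have hidx1 : idx t + 2 * (s0 + G + 1) ≤ idx t' := by
    rw [hidx]; simp only
    have h1 : (t + 1) * (s0 + G + 1) ≤ t' * (s0 + G + 1) := Nat.mul_le_mul_right _ hlt
    have h2 : (t + 1) * (s0 + G + 1) = t * (s0 + G + 1) + (s0 + G + 1) := by ring
    omega
  have ha1 : a (idx t) + 2 * (s0 + G + 1) ≤ a (idx t') :=
    (H.le_add _ _).trans (H.mono.monotone hidx1)
  have hdvd : q ∣ a (idx t') - a (idx t) := by
    have h1 := (ZMod.natCast_eq_natCast_iff _ _ _).1 hmod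
    exact (Nat.modEq_iff_dvd' (by omega)).1 h1
  obtain ⟨B, hB1, hB2, hB3, hB4⟩ := hG (a (idx t') - a (idx t) - s0) (Nat.dvd_sub hdvd hqs)
  set x := a (idx t') - a (idx t) - s0 with hx
  have hr : q ∣ x - ∑ i ∈ B, a i := Nat.dvd_sub (Nat.dvd_sub hdvd hqs) hB2
  obtain ⟨t0, ht0⟩ := hr
  have ht0G : t0 ≤ G := by
    have h1 : 1 * t0 ≤ q * t0 := Nat.mul_le_mul_right _ hq
    omega
  obtain ⟨F', hF', hsum⟩ := hT t0 ht0G
  have hd1 : Disjoint B F' := by
    rw [Finset.disjoint_left]
    intro i hi hi'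
    have h1 := (hB1 i hi).1
    have h2 := hF i (hF' hi')
    omega
  have hd2 : idx t ∉ B ∪ F' := by
    rw [Finset.mem_union]
    rintro (hi | hi)
    · have h1 := (hB1 _ hi).1
      simp only [hidx] at h1
      omega
    · have h1 := hJ _ (hF' hi)
      simp only [hidx] at h1
      omega
  apply H.sf (idx t') (insert (idx t) (B ∪ F'))
  · intro i hi
    rw [Finset.mem_insert, Finset.mem_union] at hi
    rcases hi with rfl | hi | hi
    · omega
    · have h1 := (hB1 i hi).2
      have h2 : 1 * a i ≤ q * a i := Nat.mul_le_mul_right _ hq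
      have h3 : a i < a (idx t') := by
        have := H.pos (idx t)
        omega
      exact H.mono.lt_iff_lt.1 h3
    · have h1 := hJ _ (hF' hi)
      have h2 : 2 * J ≤ idx t' := by simp only [hidx]; omega
      omega
  · rw [Finset.sum_insert hd2, Finset.sum_union hd1, hsum]
    have h1 : t0 * q = q * t0 := mul_comm _ _
    omega

theorem HypC.caseA {C : ℕ} {a : ℕ → ℕ} (H : HypC C a) (D : ℕ) (h : ∀ k, ¬ Sep a D k) : False := by
  classical
  obtain ⟨⟨d, r⟩, hdr, hP⟩ := pigeon (Ico 1 D ×ˢ range D)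
    (fun p k => ∃ T T' : Finset ℕ, (∀ i ∈ T, i % 2 = 0 ∧ k ≤ i) ∧ (∀ i ∈ T', i % 2 = 0 ∧ k ≤ i) ∧
      ∑ i ∈ T, a i = ∑ i ∈ T', a i + p.1 ∧ (∑ i ∈ T', a i) % p.1 = p.2)
    (by
      rintro p k k' hk ⟨T, T', h1, h2, h3, h4⟩
      exact ⟨T, T', fun i hi => ⟨(h1 i hi).1, hk.trans (h1 i hi).2⟩,
        fun i hi => ⟨(h2 i hi).1, hk.trans (h2 i hi).2⟩, h3, h4⟩)
    (by
      intro k
      have h1 := h k
      unfold Sep at h1
      push Not at h1
      obtain ⟨T, T', h2, h3, h4, h5⟩ := h1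
      refine ⟨(∑ i ∈ T, a i - ∑ i ∈ T', a i,
        (∑ i ∈ T', a i) % (∑ i ∈ T, a i - ∑ i ∈ T', a i)), ?_, T, T', h2, h3, ?_, rfl⟩
      · have h6 := Nat.mod_lt (∑ i ∈ T', a i) (show 0 < ∑ i ∈ T, a i - ∑ i ∈ T', a i by omega)
        rw [Finset.mem_product, Finset.mem_Ico, Finset.mem_range]
        simp only
        omega
      · simp only
        omega)
  rw [Finset.mem_product, Finset.mem_Ico, Finset.mem_range] at hdr
  simp only at hdr hP
  obtain ⟨⟨hd1, hdD⟩, hrD⟩ := hdr
  have build : ∀ t : ℕ, ∃ (F : Finset ℕ) (s0 : ℕ), s0 % d = (t * r) % d ∧ (∀ i ∈ F, i % 2 = 0) ∧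
      ∀ j ≤ t, ∃ F' ⊆ F, ∑ i ∈ F', a i = s0 + j * d := by
    intro t
    induction t with
    | zero =>
      refine ⟨∅, 0, by simp, by simp, ?_⟩
      intro j hj
      exact ⟨∅, by simp, by simp; omega⟩
    | succ t ih =>
      obtain ⟨F, s0, h1, h2, h3⟩ := ih
      obtain ⟨J, hJ⟩ := exists_bound F
      obtain ⟨T, T', h4, h5, h6, h7⟩ := hP J
      have hdT : ∀ F' ⊆ F, Disjoint F' T := by
        intro F' hF'
        rw [Finset.disjoint_left]
        intro i hi hi'
        have := hJ i (hF' hi)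
        have := (h4 i hi').2
        omega
      have hdT' : ∀ F' ⊆ F, Disjoint F' T' := by
        intro F' hF'
        rw [Finset.disjoint_left]
        intro i hi hi'
        have := hJ i (hF' hi)
        have := (h5 i hi').2
        omega
      refine ⟨F ∪ T ∪ T', s0 + ∑ i ∈ T', a i, ?_, ?_, ?_⟩
      · rw [Nat.add_mod, h1, h7]
        have h8 : r % d = r := by rw [← h7, Nat.mod_mod]
        have h9 : (t + 1) * r = t * r + r := by ring
        rw [h9, Nat.add_mod (t * r) r d, h8]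
      · intro i hi
        rw [Finset.mem_union, Finset.mem_union] at hi
        rcases hi with (hi | hi) | hi
        · exact h2 i hi
        · exact (h4 i hi).1
        · exact (h5 i hi).1
      · intro j hj
        rcases Nat.lt_or_ge j (t + 1) with hj1 | hj1
        · obtain ⟨F', hF', hs⟩ := h3 j (by omega)
          refine ⟨F' ∪ T', ?_, ?_⟩
          · intro i hi
            rw [Finset.mem_union] at hi
            rw [Finset.mem_union, Finset.mem_union]
            rcases hi with hi | hi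
            · exact Or.inl (Or.inl (hF' hi))
            · exact Or.inr hi
          · rw [Finset.sum_union (hdT' F' hF'), hs]; ring
        · obtain ⟨F', hF', hs⟩ := h3 t le_rfl
          refine ⟨F' ∪ T, ?_, ?_⟩
          · intro i hi
            rw [Finset.mem_union] at hi
            rw [Finset.mem_union, Finset.mem_union]
            rcases hi with hi | hi
            · exact Or.inl (Or.inl (hF' hi))
            · exact Or.inl (Or.inr hi)
          · have hj2 : j = t + 1 := by omega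
            rw [Finset.sum_union (hdT F' hF'), hs, h6, hj2]; ring
  apply H.final d hd1
  intro T
  obtain ⟨F, s0, h1, h2, h3⟩ := build (d * T)
  refine ⟨F, s0, ?_, h2, ?_⟩
  · rw [Nat.dvd_iff_mod_eq_zero, h1, mul_assoc]
    exact Nat.mul_mod_right _ _
  · intro t ht
    exact h3 t (ht.trans (Nat.le_mul_of_pos_left _ hd1))

theorem count_movesC {C : ℕ} (hC : 1 ≤ C) {w : ℕ → ℕ} {k1 m e : ℕ}
    (hw : ∀ j, k1 ≤ j → 1 ≤ w j ∧ w j ≤ 10 * C * j) (he : e ≤ 20 * C * m) :
    e / (20 * C) - k1 ≤ ((Ico k1 m).filter (fun j => ¬ e ∣ w j)).card := by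
  have hd : 20 * C * (e / (20 * C)) ≤ e := Nat.mul_div_le _ _
  have hE : e / (20 * C) ≤ m := by
    apply Nat.div_le_of_le_mul
    exact he
  have h1 : Ico k1 (e / (20 * C)) ⊆ (Ico k1 m).filter (fun j => ¬ e ∣ w j) := by
    intro j hj
    rw [Finset.mem_Ico] at hj
    rw [Finset.mem_filter, Finset.mem_Ico]
    refine ⟨by omega, fun h => ?_⟩
    have h2 := hw j hj.1
    have h3 := Nat.le_of_dvd (by omega) h
    have h4 : 20 * C * (j + 1) ≤ 20 * C * (e / (20 * C)) := Nat.mul_le_mul_left _ (by omega)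
    have h5 : 20 * C * (j + 1) = 2 * (10 * C * j) + 20 * C := by ring
    omega
  have := Finset.card_le_card h1
  rwa [Nat.card_Ico] at this

theorem count_termsC {C : ℕ} (hC : 1 ≤ C) {s : ℕ → ℕ} {K0 M e : ℕ}
    (hs : ∀ j, K0 ≤ j → s j < s (j + 1) ∧ s (j + 1) ≤ s j + 5 * C * j)
    (he : e / (20 * C) ≤ M) :
    (e / (20 * C) - K0) / 2 ≤ ((Ico K0 M).filter (fun j => ¬ e ∣ s j)).card := by
  classical
  have hd : 20 * C * (e / (20 * C)) ≤ e := Nat.mul_div_le _ _
  obtain ⟨E, hE⟩ : ∃ E, E = e / (20 * C) := ⟨_, rfl⟩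
  rw [← hE] at hd he ⊢
  have h1 : (range ((E - K0) / 2)).card ≤ ((Ico K0 M).filter (fun j => ¬ e ∣ s j)).card := by
    apply Finset.card_le_card_of_injOn
      (fun i => if e ∣ s (K0 + 2 * i) then K0 + 2 * i + 1 else K0 + 2 * i)
    · intro i hi
      rw [Finset.coe_range, Set.mem_Iio] at hi
      rw [Finset.mem_coe, Finset.mem_filter, Finset.mem_Ico]
      by_cases h : e ∣ s (K0 + 2 * i)
      · simp only [h, if_true]
        refine ⟨by omega, fun h' => ?_⟩
        obtain ⟨h2, h3⟩ := hs (K0 + 2 * i) (by omega)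
        have h4 := Nat.dvd_sub h' h
        have h5 := Nat.le_of_dvd (by omega) h4
        have h6 : 5 * C * (K0 + 2 * i + 1) ≤ 5 * C * E := Nat.mul_le_mul_left _ (by omega)
        have h7 : 5 * C * (K0 + 2 * i + 1) = 5 * C * (K0 + 2 * i) + 5 * C := by ring
        have h8 : 20 * C * E = 4 * (5 * C * E) := by ring
        omega
      · simp only [h, if_false]
        exact ⟨by omega, not_false⟩
    · intro i hi j hj hij
      simp only at hij
      split_ifs at hij <;> omega
  rwa [Finset.card_range] at h1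

theorem HypC.caseB {C : ℕ} (hC : 1 ≤ C) {a : ℕ → ℕ} (H : HypC C a) (k0 : ℕ)
    (hsep : Sep a (100000 * C) k0) : False := by
  classical
  obtain ⟨D, hD⟩ : ∃ D, D = 100000 * C := ⟨_, rfl⟩
  rw [← hD] at hsep
  have hD0 : 1 ≤ D := by omega
  obtain ⟨n0, hn0⟩ := H.gap
  obtain ⟨K0, hK0⟩ : ∃ K0, K0 = k0 + n0 + 1 := ⟨_, rfl⟩
  -- the terms
  have hs : ∀ j, K0 ≤ j → a (2 * j) < a (2 * (j + 1)) ∧
      a (2 * (j + 1)) ≤ a (2 * j) + 5 * C * j := by
    intro j hj
    have h1 := hn0 (2 * j) (by omega)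
    have h2 := hn0 (2 * j + 1) (by omega)
    have h3 : a (2 * (j + 1)) = a (2 * j + 1 + 1) := rfl
    have h4 : C * (2 * j) + C * (2 * j + 1) = 4 * C * j + C := by ring
    have h5 : C * 1 ≤ C * j := Nat.mul_le_mul_left _ (by omega)
    have h6 : 5 * C * j = 4 * C * j + C * j := by ring
    exact ⟨H.mono (by omega), by omega⟩
  have hw : ∀ j, K0 ≤ j → 1 ≤ a (4 * j + 2) - a (4 * j) ∧
      a (4 * j + 2) - a (4 * j) ≤ 10 * C * j := by
    intro j hj
    have h1 := hn0 (4 * j) (by omega)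
    have h2 := hn0 (4 * j + 1) (by omega)
    have h3 : a (4 * j) < a (4 * j + 2) := H.mono (by omega)
    have h4 : a (4 * j + 2) = a (4 * j + 1 + 1) := rfl
    have h5 : C * (4 * j) + C * (4 * j + 1) = 8 * C * j + C := by ring
    have h6 : C * 1 ≤ C * j := Nat.mul_le_mul_left _ (by omega)
    have h7 : 10 * C * j = 8 * C * j + 2 * (C * j) := by ring
    omega
  obtain ⟨k1, hk1, hR⟩ := exists_k1 (fun j => a (2 * j)) K0 (40 * C * K0)
  -- separation
  have hsepM : ∀ n, k1 ≤ n → DSep D (SS (Wm a k1 n + Sm a K0 (2 * k1))) := by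
    intro n hn
    set B0 := ∑ j ∈ Finset.Ico k1 n, a (4 * j) with hB0
    have key : ∀ x ∈ SS (Wm a k1 n + Sm a K0 (2 * k1)), B0 + x ∈ SI a (2 * K0) (4 * n) := by
      intro x hx
      obtain ⟨y, hy, z, hz, rfl⟩ := SS_add_split x hx
      have h1 := mem_SI_of_Wm H.mono n hn y hy
      have h2 := mem_SI_of_Sm (2 * k1) (by omega) z hz
      have h3 := SI_add (l := 4 * k1) (by omega) (by omega)
        (SI_mono (k' := 2 * K0) (n' := 4 * k1) (by omega) (by omega) h2) h1
      have h4 : B0 + (y + z) = z + (B0 + y) := by ring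
      rwa [h4]
    intro x hx y hy hxy
    obtain ⟨F, hF, hFx⟩ := key x hx
    obtain ⟨F', hF', hFy⟩ := key y hy
    have := hsep F' F (fun i hi => by have := hF' i hi; omega)
      (fun i hi => by have := hF i hi; omega) (by omega)
    omega
  have main : ∀ T, ∃ q ∈ Icc 1 (40 * C * K0), Good a q T := by
    intro T
    obtain ⟨L3, hL3⟩ : ∃ L3, L3 = a (4 * k1) := ⟨_, rfl⟩
    obtain ⟨P, hP⟩ : ∃ P, P = 40 * C * k1 := ⟨_, rfl⟩
    obtain ⟨m, hm⟩ : ∃ m, m = 4 * (T + 2 * L3 + 4 + P) + 1000 := ⟨_, rfl⟩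
    have hk1P : k1 ≤ P := by
      rw [hP]
      exact Nat.le_mul_of_pos_left _ (by omega)
    have hM12 : Wm a m (2 * m) + Wm a k1 m = Wm a k1 (2 * m) := Wm_add (by omega) (by omega)
    have hsep3 := hsepM (2 * m) (by omega)
    have hsep2 : DSep D (SS (Wm a m (2 * m) + Wm a k1 m)) := by
      rw [hM12]
      exact hsep3.mono (SS_mono (Multiset.le_add_right _ _))
    have hsep1 : DSep D (SS (Wm a m (2 * m))) :=
      hsep2.mono (SS_mono (Multiset.le_add_right _ _))
    obtain ⟨Cm, hCm⟩ : ∃ Cm, Cm = C * m := ⟨_, rfl⟩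
    have hCm1 : m ≤ Cm := by rw [hCm]; exact Nat.le_mul_of_pos_left _ (by omega)
    have hcard1 : (Wm a m (2 * m)).card = m := by
      unfold Wm
      rw [Multiset.card_map, Finset.card_val, Nat.card_Ico]
      omega
    -- step 1
    obtain ⟨q1, α1, n1, hq1, hq1m, hAP1, hn1⟩ := main_lemma D hD0 (20 * Cm)
      (Wm a m (2 * m)) (by omega)
      (by
        intro x hx
        unfold Wm at hx
        rw [Multiset.mem_map] at hx
        obtain ⟨j, hj, rfl⟩ := hx
        have hj' : j ∈ Finset.Ico m (2 * m) := hj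
        rw [Finset.mem_Ico] at hj'
        have h1 := hw j (by omega)
        have h2 : 10 * C * j ≤ 10 * C * (2 * m) := Nat.mul_le_mul_left _ (by omega)
        have h3 : 10 * C * (2 * m) = 20 * Cm := by rw [hCm]; ring
        omega)
      hsep1
      (by
        rw [hcard1, hD]
        have h1 : m * (100000 * C) = 100000 * Cm := by rw [hCm]; ring
        omega)
    rw [hcard1] at hn1
    -- step 2
    obtain ⟨X, hX⟩ : ∃ X, X = q1 * m := ⟨_, rfl⟩
    obtain ⟨Z, hZ⟩ : ∃ Z, Z = q1 * n1 := ⟨_, rfl⟩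
    have hXZ : X ≤ 2 * Z := by
      rw [hX, hZ]
      calc q1 * m ≤ q1 * (2 * n1) := Nat.mul_le_mul_left _ hn1
        _ = 2 * (q1 * n1) := by ring
    have hqX : 1000 * q1 ≤ X := by
      rw [hX, mul_comm]
      exact Nat.mul_le_mul_left _ (by omega)
    have hD1 : D ≤ q1 := by
      have h0 := hAP1 0 (by omega)
      have h1 := hAP1 1 (by omega)
      have := hsep1 _ h0 _ h1 (by omega)
      omega
    obtain ⟨u, hu⟩ : ∃ u, u = q1 / D := ⟨_, rfl⟩
    have hu1 : 1 ≤ u := by
      rw [hu]; exact (Nat.one_le_div_iff (by omega)).2 hD1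
    have hu2 : D * u ≤ q1 := by rw [hu]; exact Nat.mul_div_le _ _
    obtain ⟨Y, hY⟩ : ∃ Y, Y = u * (10 * Cm) := ⟨_, rfl⟩
    have hY1 : 10000 * Y ≤ X := by
      rw [hX, hY]
      calc 10000 * (u * (10 * Cm)) = (D * u) * m := by rw [hD, hCm]; ring
        _ ≤ q1 * m := Nat.mul_le_mul_right _ hu2
    have hY2 : 10 * Cm ≤ Y := by rw [hY]; exact Nat.le_mul_of_pos_left _ hu1
    have habs1 : q1 / D * (10 * Cm) + 10 * Cm + 3 * q1 ≤ q1 * n1 := by
      rw [← hu, ← hY, ← hZ]
      omega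
    obtain ⟨e1, α2, n2, he1, he1q, hα2, hα2', hAP2, hf2, hn2⟩ := absorb (L := 10 * Cm) hD0
      hq1 hsep2
      (by
        intro x hx
        unfold Wm at hx
        rw [Multiset.mem_map] at hx
        obtain ⟨j, hj, rfl⟩ := hx
        have hj' : j ∈ Finset.Ico k1 m := hj
        rw [Finset.mem_Ico] at hj'
        have h1 := hw j (by omega)
        have h2 : 10 * C * j ≤ 10 * C * m := Nat.mul_le_mul_left _ (by omega)
        have h3 : 10 * C * m = 10 * Cm := by rw [hCm]; ring
        omega) hAP1 habs1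
    rw [← hu, ← hY, ← hZ] at hn2
    have he1q' : e1 ≤ q1 := Nat.le_of_dvd (by omega) he1q
    have hn2m : m ≤ 4 * n2 := by
      have h1 : e1 * u ≤ q1 * u := Nat.mul_le_mul_right _ he1q'
      have h2 : 5000 * u ≤ m := by
        have h3 : C * (100000 * u) ≤ C * (20 * m) := by
          calc C * (100000 * u) = D * u := by rw [hD]; ring
            _ ≤ q1 := hu2
            _ ≤ 20 * Cm := hq1m
            _ = C * (20 * m) := by rw [hCm]; ring
        have h4 := Nat.le_of_mul_le_mul_left h3 (by omega)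
        omega
      have h3 : 5000 * (q1 * u) ≤ X := by
        rw [hX]
        calc 5000 * (q1 * u) = q1 * (5000 * u) := by ring
          _ ≤ q1 * m := Nat.mul_le_mul_left _ h2
      have h4 : X ≤ 4 * (e1 * n2) := by omega
      have h5 : e1 * m ≤ e1 * (4 * n2) := by
        calc e1 * m ≤ q1 * m := Nat.mul_le_mul_right _ he1q'
          _ = X := hX.symm
          _ ≤ 4 * (e1 * n2) := h4
          _ = e1 * (4 * n2) := by ring
      exact Nat.le_of_mul_le_mul_left h5 (by omega)
    have he1k : e1 ≤ P := by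
      by_contra hcon
      push Not at hcon
      have h1 := count_movesC hC (w := fun j => a (4 * j + 2) - a (4 * j)) (k1 := k1) (m := m)
        (e := e1) (fun j hj => hw j (by omega))
        (by
          have : 20 * C * m = 20 * Cm := by rw [hCm]; ring
          omega)
      have h2 := card_filter_map (fun j => a (4 * j + 2) - a (4 * j)) k1 m e1
      rw [← h2] at h1
      change e1 / (20 * C) - k1 ≤ ((Wm a k1 m).filter (fun w => ¬ e1 ∣ w)).card at h1
      have h3 : 20 * C * (e1 / (20 * C) + 1) > e1 := Nat.lt_mul_div_succ e1 (by omega)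
      obtain ⟨E, hE⟩ : ∃ E, E = e1 / (20 * C) := ⟨_, rfl⟩
      rw [← hE] at h1 h3
      have h4 : 2 * k1 ≤ E := by
        rw [hE, Nat.le_div_iff_mul_le (by omega)]
        have : 2 * k1 * (20 * C) = P := by rw [hP]; ring
        omega
      obtain ⟨card, hcard⟩ : ∃ c, c = ((Wm a k1 m).filter (fun w => ¬ e1 ∣ w)).card := ⟨_, rfl⟩
      rw [← hcard] at h1 hf2
      have h5 : D * (E + 2) ≤ D * (2 * (card + 1)) := Nat.mul_le_mul_left _ (by omega)
      have h6 : D * (2 * (card + 1)) = 2 * (D * (card + 1)) := by ring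
      have h7 : D * (E + 2) = 5000 * (20 * C * (E + 1)) + D := by rw [hD]; ring
      omega
    -- step 3
    rw [hM12] at hAP2
    have habs2 : e1 / D * L3 + L3 + 3 * e1 ≤ e1 * n2 := by
      have h1 : e1 / D * L3 ≤ e1 * L3 := Nat.mul_le_mul_right _ (Nat.div_le_self _ _)
      have h2 : L3 ≤ e1 * L3 := Nat.le_mul_of_pos_left _ he1
      have h3 : e1 * (2 * L3 + 3) ≤ e1 * n2 := Nat.mul_le_mul_left _ (by omega)
      have h4 : e1 * (2 * L3 + 3) = 2 * (e1 * L3) + 3 * e1 := by ring
      omega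
    obtain ⟨e2, α3, n3, he2, he2e, hα3, hα3', hAP3, hf3, hn3⟩ := absorb (L := L3) hD0
      he1 hsep3
      (by
        intro x hx
        unfold Sm at hx
        rw [Multiset.mem_map] at hx
        obtain ⟨j, hj, rfl⟩ := hx
        have hj' : j ∈ Finset.Ico K0 (2 * k1) := hj
        rw [Finset.mem_Ico] at hj'
        refine ⟨H.pos _, ?_⟩
        rw [hL3]
        exact H.mono.monotone (by omega)) hAP2 habs2
    have he2e' : e2 ≤ e1 := Nat.le_of_dvd (by omega) he2e
    have hn3T : T ≤ n3 := by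
      have h1 : e1 / D * L3 ≤ e1 * L3 := Nat.mul_le_mul_right _ (Nat.div_le_self _ _)
      have h2 : e2 * (e1 / D) ≤ e1 * e1 := Nat.mul_le_mul he2e' (Nat.div_le_self _ _)
      have h3 : e2 * n3 ≤ e1 * n3 := Nat.mul_le_mul_right _ he2e'
      have h4 : e1 * n2 ≤ e1 * (n3 + L3 + 1 + e1) := by
        have : e1 * (n3 + L3 + 1 + e1) = e1 * n3 + e1 * L3 + e1 + e1 * e1 := by ring
        omega
      have h5 := Nat.le_of_mul_le_mul_left h4 (by omega)
      omega
    have hfS : ((Sm a K0 (2 * k1)).filter (fun w => ¬ e2 ∣ w)).card =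
        ((Ico K0 (2 * k1)).filter (fun j => ¬ e2 ∣ a (2 * j))).card :=
      card_filter_map (fun j => a (2 * j)) K0 (2 * k1) e2
    rw [hfS] at hf3
    obtain ⟨card, hcard⟩ : ∃ c, c = ((Ico K0 (2 * k1)).filter (fun j => ¬ e2 ∣ a (2 * j))).card :=
      ⟨_, rfl⟩
    rw [← hcard] at hf3
    have he2K : e2 ≤ 40 * C * K0 := by
      by_contra hcon
      push Not at hcon
      have h3 : 20 * C * (e2 / (20 * C) + 1) > e2 := Nat.lt_mul_div_succ e2 (by omega)
      have hE2 : e2 / (20 * C) ≤ 2 * k1 := by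
        apply Nat.div_le_of_le_mul
        have : 20 * C * (2 * k1) = P := by rw [hP]; ring
        omega
      have h1 := count_termsC hC (s := fun j => a (2 * j)) (K0 := K0) (M := 2 * k1) (e := e2) hs
        hE2
      rw [← hcard] at h1
      obtain ⟨E, hE⟩ : ∃ E, E = e2 / (20 * C) := ⟨_, rfl⟩
      rw [← hE] at h1 h3
      have h4 : 2 * K0 ≤ E := by
        rw [hE, Nat.le_div_iff_mul_le (by omega)]
        have : 2 * K0 * (20 * C) = 40 * C * K0 := by ring
        omega
      have h5 : D * (E + 1) ≤ D * (4 * (card + 1)) := Nat.mul_le_mul_left _ (by omega)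
      have h6 : D * (4 * (card + 1)) = 4 * (D * (card + 1)) := by ring
      have h7 : D * (E + 1) = 5000 * (20 * C * (E + 1)) := by rw [hD]; ring
      omega
    have hdvd : ∀ j, 2 * k1 ≤ j → e2 ∣ a (2 * j) := by
      rcases hR e2 (by rw [Finset.mem_Icc]; omega) with h | h
      · exact h
      · rw [← hcard] at h
        have h1 : 1 * (card + 1) ≤ D * (card + 1) := Nat.mul_le_mul_right _ hD0
        omega
    refine ⟨e2, by rw [Finset.mem_Icc]; omega, ?_⟩
    apply Good.anti hn3T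
    set B0 := ∑ j ∈ Finset.Ico k1 (2 * m), a (4 * j) with hB0
    have hdB0 : e2 ∣ B0 := by
      apply Finset.dvd_sum
      intro j hj
      rw [Finset.mem_Ico] at hj
      have := hdvd (2 * j) (by omega)
      have h2 : 2 * (2 * j) = 4 * j := by ring
      rwa [h2] at this
    have hdα1 : e2 ∣ α1 := by
      have h0 := hAP1 0 (by omega)
      rw [zero_mul, add_zero] at h0
      obtain ⟨T', hT', rfl⟩ := h0
      apply Multiset.dvd_sum
      intro x hx
      have hx' := Multiset.mem_of_le hT' hx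
      unfold Wm at hx'
      rw [Multiset.mem_map] at hx'
      obtain ⟨j, hj, rfl⟩ := hx'
      have hj' : j ∈ Finset.Ico m (2 * m) := hj
      rw [Finset.mem_Ico] at hj'
      have h1 := hdvd (2 * j) (by omega)
      have h2 := hdvd (2 * j + 1) (by omega)
      have h3 : 2 * (2 * j) = 4 * j := by ring
      have h4 : 2 * (2 * j + 1) = 4 * j + 2 := by ring
      rw [h3] at h1
      rw [h4] at h2
      exact Nat.dvd_sub h2 h1
    have hdα3 : e2 ∣ α3 := by
      have h1 : e2 ∣ α2 - α1 := he2e.trans hα2'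
      have h2 : α3 = (α3 - α2) + ((α2 - α1) + α1) := by omega
      rw [h2]
      exact dvd_add hα3' (dvd_add h1 hdα1)
    refine ⟨(Finset.range (8 * m)).filter (fun i => i % 2 = 0), B0 + α3, dvd_add hdB0 hdα3, ?_, ?_⟩
    · intro i hi
      exact (Finset.mem_filter.1 hi).2
    · intro t ht
      obtain ⟨y, hy, z, hz, hyz⟩ := SS_add_split _ (hAP3 t ht)
      have h1 := mem_SI_of_Wm H.mono (2 * m) (by omega) y hy
      have h2 := mem_SI_of_Sm (2 * k1) (by omega) z hz
      have h3 := SI_add (l := 4 * k1) (by omega) (by omega)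
        (SI_mono (k' := 2 * K0) (n' := 4 * k1) (by omega) (by omega) h2) h1
      obtain ⟨F', hF', hs'⟩ := h3
      refine ⟨F', ?_, ?_⟩
      · intro i hi
        have := hF' i hi
        rw [Finset.mem_filter, Finset.mem_range]
        omega
      · rw [hs']
        omega
  obtain ⟨q, hq, hG⟩ := pigeon (Icc 1 (40 * C * K0)) (fun q T => Good a q T)
    (fun _ _ _ h hg => Good.anti h hg) main
  rw [Finset.mem_Icc] at hq
  exact H.final q hq.1 hG

theorem HypC.false {C : ℕ} (hC : 1 ≤ C) {a : ℕ → ℕ} (H : HypC C a) : False := by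
  by_cases h : ∃ k, Sep a (100000 * C) k
  · obtain ⟨k, hk⟩ := h
    exact H.caseB hC k hk
  · push Not at h
    exact H.caseA (100000 * C) h

end Pool.Agent.Lib.MP_d49ebf_nt
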